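import Mathlib

/-!
# Vectors of integers in a box with prescribed residues modulo many primes
-/

set_option autoImplicit false

namespace Pool.Agent.D0H55.LL

open Finset

/-- integers of `[-Y, Y]` in a residue class -/
lemma card_modEq (Y m : ℕ) (hm : 0 < m) (v : ℤ) :
    ((Icc (-(Y : ℤ)) Y).filter fun x => x ≡ v [ZMOD (m : ℤ)]).card ≤ (2 * Y + 1) / m + 1 := by
  have h1 : Icc (-(Y : ℤ)) Y = Ioc (-(Y : ℤ) - 1) Y := by
    ext x
    rw [mem_Icc, mem_Ioc]
    omega
  have hm' : (0 : ℤ) < m := by exact_mod_cast hm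
  have h2 := Int.Ioc_filter_modEq_card (-(Y : ℤ) - 1) Y hm' v
  rw [h1]
  have h3 : (((Ioc (-(Y : ℤ) - 1) (Y : ℤ)).filter fun x => x ≡ v [ZMOD (m : ℤ)]).card : ℤ) ≤
      (((2 * Y + 1) / m + 1 : ℕ) : ℤ) := by
    rw [h2]
    refine max_le ?_ (by positivity)
    have h4 : (⌊(((Y : ℤ) : ℚ) - v) / ((m : ℤ) : ℚ)⌋ : ℤ) - ⌊((((-(Y : ℤ) - 1 : ℤ)) : ℚ) - v) / ((m : ℤ) : ℚ)⌋ ≤
        (((2 * Y + 1) / m + 1 : ℕ) : ℤ) := by
      set A : ℚ := (((Y : ℤ) : ℚ) - v) / ((m : ℤ) : ℚ) with hA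
      set B : ℚ := ((((-(Y : ℤ) - 1 : ℤ)) : ℚ) - v) / ((m : ℤ) : ℚ) with hB
      have hm0 : (0 : ℚ) < m := by exact_mod_cast hm
      have h5 : A - B = (2 * Y + 1 : ℕ) / (m : ℚ) := by
        rw [hA, hB, ← sub_div]
        push_cast
        congr 1
        ring
      have h6 : (2 * Y + 1 : ℕ) / (m : ℚ) < (((2 * Y + 1) / m : ℕ) : ℚ) + 1 := by
        rw [div_lt_iff₀ hm0]
        have h7 := Nat.lt_div_mul_add (a := 2 * Y + 1) hm
        have h8 : (2 * Y + 1 : ℕ) < ((2 * Y + 1) / m + 1) * m := by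
          rw [add_mul, one_mul]
          exact h7
        exact_mod_cast h8
      have h9 : (⌊A⌋ : ℚ) ≤ A := Int.floor_le A
      have h10 : B < (⌊B⌋ : ℚ) + 1 := Int.lt_floor_add_one B
      have h11 : ((⌊A⌋ : ℤ) : ℚ) - ⌊B⌋ < (((2 * Y + 1) / m : ℕ) : ℚ) + 2 := by linarith
      have h12 : (⌊A⌋ - ⌊B⌋ : ℤ) < ((((2 * Y + 1) / m : ℕ) : ℤ) + 2) := by
        apply (Int.cast_lt (R := ℚ)).1
        push_cast
        push_cast at h11
        exact h11
      push_cast
      push_cast at h12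
      omega
    exact h4
  exact_mod_cast h3

/-- **Counting vectors.** -/
theorem count_le (ι : Type) [Fintype ι] (Y : ℕ) (P : Finset ℕ) (hP : ∀ p ∈ P, p.Prime)
    (hPY : ∏ p ∈ P, p ≤ 2 * Y + 1) (Bad : (p : ℕ) → Set (ι → ZMod p)) :
    ({c : ι → ℤ | (∀ i, |c i| ≤ (Y : ℤ)) ∧ ∀ p ∈ P, (fun i => (c i : ZMod p)) ∈ Bad p}.ncard : ℝ) ≤
      (∏ p ∈ P, ((Bad p).ncard : ℝ)) *
        (2 * (2 * Y + 1) / ∏ p ∈ P, (p : ℝ)) ^ Fintype.card ι := by
  classical
  set m := ∏ p ∈ P, p with hm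
  have hm0 : 0 < m := Finset.prod_pos fun p hp => (hP p hp).pos
  let T : (p : ℕ) → Finset (ι → ZMod p) := fun p =>
    if h : (Bad p).Finite then h.toFinset else ∅
  have hT : ∀ p ∈ P, ∀ x, x ∈ T p ↔ x ∈ Bad p := by
    intro p hp x
    have : NeZero p := ⟨(hP p hp).ne_zero⟩
    have hfin : (Bad p).Finite := Set.toFinite _
    simp only [T, dif_pos hfin, Set.Finite.mem_toFinset]
  have hTc : ∀ p ∈ P, (T p).card = (Bad p).ncard := by
    intro p hp
    have : NeZero p := ⟨(hP p hp).ne_zero⟩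
    have hfin : (Bad p).Finite := Set.toFinite _
    simp only [T, dif_pos hfin]
    exact (Set.ncard_eq_toFinset_card _ hfin).symm
  set s : Finset (ι → ℤ) := (Fintype.piFinset fun _ => Icc (-(Y : ℤ)) Y).filter
    (fun c => ∀ p ∈ P, (fun i => (c i : ZMod p)) ∈ Bad p) with hs
  have hset : {c : ι → ℤ | (∀ i, |c i| ≤ (Y : ℤ)) ∧ ∀ p ∈ P, (fun i => (c i : ZMod p)) ∈ Bad p} =
      (s : Set (ι → ℤ)) := by
    ext c
    rw [Finset.mem_coe, hs, mem_filter, Fintype.mem_piFinset, Set.mem_ofPred_eq]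
    simp only [mem_Icc, abs_le]
  have key := Finset.card_le_mul_card_image_of_maps_to
    (f := fun (c : ι → ℤ) => (fun (p : ℕ) (_ : p ∈ P) (i : ι) => (c i : ZMod p)))
    (s := s) (t := P.pi T) (by
      intro c hc
      rw [hs, mem_filter] at hc
      rw [Finset.mem_pi]
      intro p hp
      exact (hT p hp _).2 (hc.2 p hp)) (((2 * Y + 1) / m + 1) ^ Fintype.card ι) (by
      intro b _
      rcases Finset.eq_empty_or_nonempty
        (s.filter fun c => (fun (p : ℕ) (_ : p ∈ P) (i : ι) => (c i : ZMod p)) = b) with h | h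
      · rw [h]
        simp
      · obtain ⟨c0, hc0⟩ := h
        have hsub : (s.filter fun c => (fun (p : ℕ) (_ : p ∈ P) (i : ι) => (c i : ZMod p)) = b) ⊆
            Fintype.piFinset fun i => (Icc (-(Y : ℤ)) Y).filter fun x => x ≡ c0 i [ZMOD (m : ℤ)] := by
          intro c hc
          rw [mem_filter] at hc hc0
          rw [Fintype.mem_piFinset]
          intro i
          rw [mem_filter]
          refine ⟨?_, ?_⟩
          · have := hc.1
            rw [hs, mem_filter, Fintype.mem_piFinset] at this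
            exact this.1 i
          · apply Int.ModEq.symm
            rw [Int.modEq_iff_dvd, hm, Nat.cast_prod]
            refine Finset.prod_dvd_of_coprime ?_ ?_
            · intro p hp q hq hpq
              exact Nat.isCoprime_iff_coprime.2
                ((Nat.coprime_primes (hP p hp) (hP q hq)).2 hpq)
            · intro p hp
              have h1 : (c i : ZMod p) = (c0 i : ZMod p) :=
                congrFun (congrFun (congrFun (hc.2.trans hc0.2.symm) p) hp) i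
              have h2 : ((c i - c0 i : ℤ) : ZMod p) = 0 := by
                rw [Int.cast_sub, h1, sub_self]
              exact (ZMod.intCast_zmod_eq_zero_iff_dvd _ _).1 h2
        refine (Finset.card_le_card hsub).trans ?_
        rw [Fintype.card_piFinset]
        calc ∏ i : ι, ((Icc (-(Y : ℤ)) Y).filter fun x => x ≡ c0 i [ZMOD (m : ℤ)]).card ≤
            ∏ _i : ι, ((2 * Y + 1) / m + 1) :=
              Finset.prod_le_prod' fun i _ => card_modEq Y m hm0 (c0 i)
          _ = _ := by rw [Finset.prod_const, card_univ])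
  rw [hset, Set.ncard_coe_finset]
  rw [Finset.card_pi, Finset.prod_congr rfl hTc] at key
  have h1 : ((s.card : ℕ) : ℝ) ≤
      ((((2 * Y + 1) / m + 1) ^ Fintype.card ι * ∏ p ∈ P, (Bad p).ncard : ℕ) : ℝ) := by
    exact_mod_cast key
  refine h1.trans ?_
  push_cast
  rw [mul_comm]
  refine mul_le_mul_of_nonneg_left ?_ (prod_nonneg fun p _ => Nat.cast_nonneg _)
  have hmr : ∏ p ∈ P, (p : ℝ) = (m : ℝ) := by
    rw [hm, Nat.cast_prod]
  rw [hmr]
  have hm1 : (0 : ℝ) < m := by exact_mod_cast hm0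
  refine pow_le_pow_left₀ (by positivity) ?_ _
  have h2 : (((2 * Y + 1) / m : ℕ) : ℝ) ≤ ((2 * Y + 1 : ℕ) : ℝ) / m := Nat.cast_div_le
  have h3 : (1 : ℝ) ≤ ((2 * Y + 1 : ℕ) : ℝ) / m := by
    rw [le_div_iff₀ hm1, one_mul]
    exact_mod_cast hPY
  push_cast at h2 h3
  calc (((2 * Y + 1) / m : ℕ) : ℝ) + 1 ≤ (2 * (Y : ℝ) + 1) / m + (2 * (Y : ℝ) + 1) / m := by
        linarith
    _ = _ := by ring

end Pool.Agent.D0H55.LL
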