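import Pool.Agent.D0H55.LL.Mean
import Pool.Agent.D0H55.LL.Crt

/-!
# The number of vectors without a good prime
-/

set_option autoImplicit false

namespace Pool.Agent.D0H55.LL

open Finset

/-- the share of the bad vectors -/
noncomputable def gd (d p : ℕ) : ℝ := 1 - (1 - 1 / (p : ℝ)) ^ 2 / d

lemma gd_nonneg (d p : ℕ) (hd : 2 ≤ d) (hp : p.Prime) : 0 ≤ gd d p := by
  have hd0 : (1 : ℝ) ≤ d := by exact_mod_cast (by omega : 1 ≤ d)
  have hp0 : (1 : ℝ) ≤ p := by exact_mod_cast hp.one_le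
  have h1 : 1 / (p : ℝ) ≤ 1 := by
    rw [div_le_one (by linarith)]
    exact hp0
  have h2 : 0 ≤ 1 / (p : ℝ) := by positivity
  unfold gd
  have h3 : (1 - 1 / (p : ℝ)) ^ 2 / d ≤ 1 := by
    rw [div_le_one (by linarith)]
    nlinarith
  linarith

lemma gd_le_one (d p : ℕ) : gd d p ≤ 1 := by
  unfold gd
  have : 0 ≤ (1 - 1 / (p : ℝ)) ^ 2 / d := by positivity
  linarith

/-- the weight: `gd` at the primes larger than `z` -/
noncomputable def gz (d z p : ℕ) : ℝ := if z < p ∧ p.Prime then gd d p else 1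

lemma gz_nonneg (d z : ℕ) (hd : 2 ≤ d) (p : ℕ) : 0 ≤ gz d z p := by
  unfold gz
  split_ifs with h
  · exact gd_nonneg d p hd h.2
  · exact zero_le_one

lemma gz_le_one (d z p : ℕ) : gz d z p ≤ 1 := by
  unfold gz
  split_ifs
  · exact gd_le_one d p
  · exact le_rfl

/-- few vectors are bad modulo `p` -/
def Few (d : ℕ) {ι : Type} [Fintype ι] (Bad : (p : ℕ) → Set (ι → ZMod p)) : Prop :=
  ∀ p : ℕ, p.Prime → ((Bad p).ncard : ℝ) ≤ gd d p * (p : ℝ) ^ Fintype.card ι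

section

variable {ι : Type} [Fintype ι] {Bad : (p : ℕ) → Set (ι → ZMod p)}

/-- the number of bad vectors for one denominator -/
theorem fibre_le (d z n Y : ℕ) (hBad : Few d Bad) (hn : n ≠ 0) (hnY : n ≤ 2 * Y + 1) :
    ({v : ι → ℤ | (∀ i, |v i| ≤ (Y : ℤ)) ∧ ∀ p : ℕ, p.Prime → z < p → p ∣ n →
      (fun i => (v i : ZMod p)) ∈ Bad p}.ncard : ℝ) ≤
      (2 * (2 * Y + 1)) ^ Fintype.card ι * wt (gz d z) n := by
  classical
  set P : Finset ℕ := n.primeFactors.filter fun p => z < p with hP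
  have hPp : ∀ p ∈ P, p.Prime := fun p hp => Nat.prime_of_mem_primeFactors (mem_filter.1 hp).1
  have hPn : ∏ p ∈ P, p ≤ n := by
    refine le_trans ?_ (Nat.le_of_dvd (Nat.pos_of_ne_zero hn) (Nat.prod_primeFactors_dvd n))
    exact Finset.prod_le_prod_of_subset_of_one_le' (filter_subset _ _) fun p hp _ =>
      (Nat.prime_of_mem_primeFactors hp).one_le
  have h1 := count_le ι Y P hPp (hPn.trans hnY) Bad
  have hset : {v : ι → ℤ | (∀ i, |v i| ≤ (Y : ℤ)) ∧ ∀ p : ℕ, p.Prime → z < p → p ∣ n →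
      (fun i => (v i : ZMod p)) ∈ Bad p} = {v : ι → ℤ | (∀ i, |v i| ≤ (Y : ℤ)) ∧
        ∀ p ∈ P, (fun i => (v i : ZMod p)) ∈ Bad p} := by
    ext v
    constructor
    · rintro ⟨a, b⟩
      refine ⟨a, fun p hp => b p (hPp p hp) (mem_filter.1 hp).2 ?_⟩
      exact Nat.dvd_of_mem_primeFactors (mem_filter.1 hp).1
    · rintro ⟨a, b⟩
      refine ⟨a, fun p hp hz hpn => b p ?_⟩
      rw [hP, mem_filter, Nat.mem_primeFactors]
      exact ⟨⟨hp, hpn, hn⟩, hz⟩
  rw [hset]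
  refine h1.trans ?_
  have h2 : ∏ p ∈ P, ((Bad p).ncard : ℝ) ≤ ∏ p ∈ P, (gd d p * (p : ℝ) ^ Fintype.card ι) :=
    prod_le_prod (fun p _ => Nat.cast_nonneg _) fun p hp => hBad p (hPp p hp)
  have h3 : ∏ p ∈ P, gd d p = wt (gz d z) n := by
    unfold wt
    rw [hP, Finset.prod_filter]
    refine prod_congr rfl fun p hp => ?_
    unfold gz
    have hpp := Nat.prime_of_mem_primeFactors hp
    by_cases hz : z < p
    · rw [if_pos hz, if_pos ⟨hz, hpp⟩]
    · rw [if_neg hz, if_neg (fun h => hz h.1)]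
  rw [prod_mul_distrib, h3, prod_pow] at h2
  have hm0 : (0 : ℝ) < ∏ p ∈ P, (p : ℝ) := prod_pos fun p hp => by exact_mod_cast (hPp p hp).pos
  calc (∏ p ∈ P, ((Bad p).ncard : ℝ)) * (2 * (2 * Y + 1) / ∏ p ∈ P, (p : ℝ)) ^ Fintype.card ι ≤
      (wt (gz d z) n * (∏ p ∈ P, (p : ℝ)) ^ Fintype.card ι) *
        (2 * (2 * Y + 1) / ∏ p ∈ P, (p : ℝ)) ^ Fintype.card ι :=
        mul_le_mul_of_nonneg_right h2 (by positivity)
    _ = _ := by
      rw [div_pow]
      field_simp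

/-- the pairs without a good prime larger than `z` -/
def Exc (Bad : (p : ℕ) → Set (ι → ZMod p)) (X Y z : ℕ) : Set (ℤ × (ι → ℤ)) :=
  {c | |c.1| ≤ (X : ℤ) ∧ (∀ i, |c.2 i| ≤ (Y : ℤ)) ∧
    (c.1 = 0 ∨ ∀ p : ℕ, p.Prime → z < p → (p : ℤ) ∣ c.1 →
      (fun i => (c.2 i : ZMod p)) ∈ Bad p)}

lemma box_card (Y : ℕ) (S : Set (ι → ℤ)) (hS : ∀ v ∈ S, ∀ i, |v i| ≤ (Y : ℤ)) :
    (S.ncard : ℝ) ≤ (2 * Y + 1) ^ Fintype.card ι := by
  classical
  have hsub : S ⊆ ((Fintype.piFinset fun _ : ι => Icc (-(Y : ℤ)) Y : Finset _) : Set _) := by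
    intro v hv
    rw [Finset.mem_coe, Fintype.mem_piFinset]
    intro i
    rw [mem_Icc]
    exact abs_le.1 (hS v hv i)
  have h1 := Set.ncard_le_ncard hsub (Finset.finite_toSet _)
  rw [Set.ncard_coe_finset, Fintype.card_piFinset, prod_const, card_univ, Int.card_Icc] at h1
  have h2 : ((Y : ℤ) + 1 - -(Y : ℤ)).toNat = 2 * Y + 1 := by omega
  rw [h2] at h1
  exact_mod_cast h1

lemma box_finite (X Y : ℕ) (S : Set (ℤ × (ι → ℤ))) (hS : ∀ c ∈ S, |c.1| ≤ (X : ℤ) ∧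
      ∀ i, |c.2 i| ≤ (Y : ℤ)) : S.Finite := by
  classical
  have hsub : S ⊆ ((Icc (-(X : ℤ)) X ×ˢ (Fintype.piFinset fun _ : ι =>
      Icc (-(Y : ℤ)) Y) : Finset _) : Set _) := by
    intro c hc
    rw [Finset.mem_coe, mem_product, Fintype.mem_piFinset, mem_Icc]
    refine ⟨abs_le.1 (hS c hc).1, fun i => ?_⟩
    rw [mem_Icc]
    exact abs_le.1 ((hS c hc).2 i)
  exact (Finset.finite_toSet _).subset hsub

/-- the vectors, by the denominators -/
lemma exc_sum (X Y : ℕ) (S : Set (ℤ × (ι → ℤ))) (hS : ∀ c ∈ S, |c.1| ≤ (X : ℤ) ∧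
      ∀ i, |c.2 i| ≤ (Y : ℤ)) :
    (S.ncard : ℝ) ≤ ∑ b ∈ Icc (-(X : ℤ)) X, ({v : ι → ℤ | (b, v) ∈ S}.ncard : ℝ) := by
  classical
  have hfin := box_finite X Y S hS
  set s := hfin.toFinset with hs
  have h1 : S.ncard = s.card := Set.ncard_eq_toFinset_card _ hfin
  have h2 := Finset.card_eq_sum_card_fiberwise (f := fun c : ℤ × (ι → ℤ) => c.1) (s := s)
    (t := Icc (-(X : ℤ)) X) (by
      intro c hc
      rw [Finset.mem_coe, hs, Set.Finite.mem_toFinset] at hc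
      rw [Finset.mem_coe, mem_Icc]
      exact abs_le.1 (hS c hc).1)
  rw [h1, h2]
  push_cast
  refine sum_le_sum fun b _ => ?_
  have hfin2 : {v : ι → ℤ | (b, v) ∈ S}.Finite :=
    hfin.preimage (fun v _ w _ h => (Prod.mk.inj h).2)
  have h3 : (s.filter fun c => c.1 = b).card ≤ {v : ι → ℤ | (b, v) ∈ S}.ncard := by
    rw [← Set.ncard_coe_finset]
    refine Set.ncard_le_ncard_of_injOn (fun c => c.2) ?_ ?_ hfin2
    · intro c hc
      rw [Finset.mem_coe, mem_filter, hs, Set.Finite.mem_toFinset] at hc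
      show (b, c.2) ∈ S
      rw [← hc.2]
      exact hc.1
    · intro c hc c' hc' h
      rw [Finset.mem_coe, mem_filter] at hc hc'
      exact Prod.ext (hc.2.trans hc'.2.symm) h
  exact_mod_cast h3

lemma sum_abs (X : ℕ) (F : ℕ → ℝ) :
    ∑ b ∈ Icc (-(X : ℤ)) X, F b.natAbs = F 0 + 2 * ∑ n ∈ Icc 1 X, F n := by
  induction X with
  | zero => simp
  | succ X ih =>
    have h1 : Icc (-((X + 1 : ℕ) : ℤ)) ((X + 1 : ℕ) : ℤ) =
        insert (-((X + 1 : ℕ) : ℤ)) (insert ((X + 1 : ℕ) : ℤ) (Icc (-(X : ℤ)) X)) := by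
      ext x
      rw [mem_insert, mem_insert, mem_Icc, mem_Icc]
      push_cast
      omega
    rw [h1, sum_insert, sum_insert, ih, Finset.sum_Icc_succ_top (by omega), Int.natAbs_neg,
      Int.natAbs_natCast]
    · ring
    · rw [mem_Icc]
      push_cast
      omega
    · rw [mem_insert, mem_Icc]
      push_cast
      omega

theorem exc_le (d X Y z : ℕ) (hBad : Few d Bad) (hXY : X ≤ Y) :
    ((Exc Bad X Y z).ncard : ℝ) ≤
      (2 * Y + 1) ^ Fintype.card ι *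
        (1 + 2 * 2 ^ Fintype.card ι * ∑ n ∈ Icc 1 X, wt (gz d z) n) := by
  classical
  have h1 := exc_sum X Y (Exc Bad X Y z) (fun c hc => ⟨hc.1, hc.2.1⟩)
  set F : ℕ → ℝ := fun n => if n = 0 then (2 * (Y : ℝ) + 1) ^ Fintype.card ι else
    (2 * (2 * (Y : ℝ) + 1)) ^ Fintype.card ι * wt (gz d z) n with hF
  refine h1.trans ?_
  have h2 : ∀ b ∈ Icc (-(X : ℤ)) X,
      ({v : ι → ℤ | (b, v) ∈ Exc Bad X Y z}.ncard : ℝ) ≤ F b.natAbs := by
    intro b hb
    rw [mem_Icc] at hb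
    by_cases hb0 : b = 0
    · rw [hb0, Int.natAbs_zero, hF]
      simp only [if_true]
      exact box_card Y _ fun v hv i => hv.2.1 i
    · have hn : b.natAbs ≠ 0 := Int.natAbs_ne_zero.2 hb0
      have hnX : b.natAbs ≤ X := by omega
      rw [hF]
      simp only [if_neg hn]
      refine le_trans ?_ (fibre_le d z b.natAbs Y hBad hn (by omega))
      have hfin : {v : ι → ℤ | (∀ i, |v i| ≤ (Y : ℤ)) ∧ ∀ p : ℕ, p.Prime → z < p →
          p ∣ b.natAbs → (fun i => (v i : ZMod p)) ∈ Bad p}.Finite := by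
        refine Set.Finite.subset (Finset.finite_toSet
          (Fintype.piFinset fun _ : ι => Icc (-(Y : ℤ)) Y)) ?_
        intro v hv
        rw [Finset.mem_coe, Fintype.mem_piFinset]
        intro i
        rw [mem_Icc]
        exact abs_le.1 (hv.1 i)
      have h3 := Set.ncard_le_ncard (s := {v : ι → ℤ | (b, v) ∈ Exc Bad X Y z}) (by
          intro v hv
          obtain ⟨_, a2, a3⟩ := hv
          refine ⟨a2, fun p hp hz hpn => ?_⟩
          rcases a3 with a3 | a3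
          · exact absurd a3 hb0
          · exact a3 p hp hz (Int.natCast_dvd.2 hpn)) hfin
      exact_mod_cast h3
  refine (sum_le_sum h2).trans ?_
  rw [sum_abs X F]
  have h3 : ∑ n ∈ Icc 1 X, F n =
      (2 * (2 * (Y : ℝ) + 1)) ^ Fintype.card ι * ∑ n ∈ Icc 1 X, wt (gz d z) n := by
    rw [Finset.mul_sum]
    refine sum_congr rfl fun n hn => ?_
    have : n ≠ 0 := by
      have := (mem_Icc.1 hn).1
      omega
    simp only [hF, if_neg this]
  rw [h3]
  simp only [hF, if_true]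
  rw [mul_pow]
  apply le_of_eq
  ring

end

end Pool.Agent.D0H55.LL
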