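import Pool.Agent.D0H55.LL.Cnt

/-!
# The estimate
-/

set_option autoImplicit false

namespace Pool.Agent.D0H55.LL

open Finset

/-- the sum over the primes in `(z, X]` -/
lemma prime_sum : ∃ M : ℝ, 0 ≤ M ∧ ∀ z X : ℕ, 3 ≤ z → z ≤ X →
    Real.log (Real.log X) - Real.log (Real.log z) - M ≤
      ∑ p ∈ (Icc 1 X).filter (fun p => z < p ∧ p.Prime), (1 - 1 / (p : ℝ)) ^ 2 / p := by
  obtain ⟨M, hM⟩ := Pool.Agent.Erdos456.Mert.mertens_inv
  have hM0 : 0 ≤ M := (abs_nonneg _).trans (hM 3 le_rfl)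
  refine ⟨2 * M + 4, by linarith, ?_⟩
  intro z X hz hX
  have h1 := (abs_le.1 (hM X (by omega))).1
  have h2 := (abs_le.1 (hM z hz)).2
  have h3 : (Icc 1 X).filter Nat.Prime = (Icc 1 z).filter Nat.Prime ∪
      (Icc 1 X).filter (fun p => z < p ∧ p.Prime) := by
    ext p
    rw [mem_union, mem_filter, mem_filter, mem_filter, mem_Icc, mem_Icc]
    constructor
    · rintro ⟨⟨a, b⟩, c⟩
      by_cases h : p ≤ z
      · exact Or.inl ⟨⟨a, h⟩, c⟩
      · exact Or.inr ⟨⟨a, b⟩, by omega, c⟩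
    · rintro (⟨⟨a, b⟩, c⟩ | ⟨⟨a, b⟩, c, e⟩)
      · exact ⟨⟨a, by omega⟩, c⟩
      · exact ⟨⟨a, b⟩, e⟩
  have h4 : Disjoint ((Icc 1 z).filter Nat.Prime) ((Icc 1 X).filter (fun p => z < p ∧ p.Prime)) := by
    rw [Finset.disjoint_left]
    intro p hp hp'
    rw [mem_filter, mem_Icc] at hp hp'
    omega
  have h5 : ∑ p ∈ (Icc 1 X).filter Nat.Prime, (1 : ℝ) / p =
      ∑ p ∈ (Icc 1 z).filter Nat.Prime, (1 : ℝ) / p +
        ∑ p ∈ (Icc 1 X).filter (fun p => z < p ∧ p.Prime), (1 : ℝ) / p := by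
    rw [h3, sum_union h4]
  have h6 : ∑ p ∈ (Icc 1 X).filter (fun p => z < p ∧ p.Prime), ((1 : ℝ) / p - 2 * (1 / (p : ℝ) ^ 2)) ≤
      ∑ p ∈ (Icc 1 X).filter (fun p => z < p ∧ p.Prime), (1 - 1 / (p : ℝ)) ^ 2 / p := by
    refine sum_le_sum fun p hp => ?_
    rw [mem_filter, mem_Icc] at hp
    have hp0 : (0 : ℝ) < p := by exact_mod_cast hp.2.2.pos
    have e1 : (1 - 1 / (p : ℝ)) ^ 2 / p = (1 : ℝ) / p - 2 * (1 / (p : ℝ) ^ 2) + 1 / (p : ℝ) ^ 3 := by
      field_simp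
      ring
    rw [e1]
    have : 0 < 1 / (p : ℝ) ^ 3 := by positivity
    linarith
  have h7 : ∑ p ∈ (Icc 1 X).filter (fun p => z < p ∧ p.Prime), 1 / (p : ℝ) ^ 2 ≤ 2 := by
    refine le_trans ?_ (sum_sq_le X)
    exact sum_le_sum_of_subset_of_nonneg (filter_subset _ _) fun p _ _ => by positivity
  rw [sum_sub_distrib, ← mul_sum] at h6
  linarith

/-- the exponential factor -/
lemma exp_le (d : ℕ) (hd : 2 ≤ d) : ∃ C : ℝ, 1 ≤ C ∧ ∀ z X : ℕ, 3 ≤ z → 3 ≤ X →
    Real.exp (∑ p ∈ (Icc 1 X).filter Nat.Prime, (gz d z p - 1) / p) ≤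
      C * (Real.log z / Real.log X) ^ (1 / (d : ℝ)) := by
  obtain ⟨M, hM0, hM⟩ := prime_sum
  have hd0 : (0 : ℝ) < d := by exact_mod_cast (by omega : 0 < d)
  refine ⟨Real.exp (M / d), Real.one_le_exp (by positivity), ?_⟩
  intro z X hz hX
  have hz3 : (3 : ℝ) ≤ z := by exact_mod_cast hz
  have hX3 : (3 : ℝ) ≤ X := by exact_mod_cast hX
  have hlz : 0 < Real.log z := Real.log_pos (by linarith)
  have hlX : 0 < Real.log X := Real.log_pos (by linarith)
  have e1 : ∑ p ∈ (Icc 1 X).filter Nat.Prime, (gz d z p - 1) / p =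
      -(1 / d) * ∑ p ∈ (Icc 1 X).filter (fun p => z < p ∧ p.Prime), (1 - 1 / (p : ℝ)) ^ 2 / p := by
    rw [Finset.mul_sum, Finset.sum_filter, Finset.sum_filter]
    refine sum_congr rfl fun p _ => ?_
    unfold gz gd
    by_cases hp : p.Prime
    · by_cases hzp : z < p
      · rw [if_pos hp, if_pos ⟨hzp, hp⟩, if_pos ⟨hzp, hp⟩]
        ring
      · rw [if_pos hp, if_neg (fun h => hzp h.1), if_neg (fun h => hzp h.1)]
        simp
    · rw [if_neg hp, if_neg (fun h => hp h.2)]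
  rw [e1]
  have hsum0 : 0 ≤ ∑ p ∈ (Icc 1 X).filter (fun p => z < p ∧ p.Prime), (1 - 1 / (p : ℝ)) ^ 2 / p :=
    sum_nonneg fun p _ => by positivity
  rcases le_total z X with hzX | hzX
  · have h1 := hM z X hz hzX
    have h2 : Real.log (Real.log z / Real.log X) = Real.log (Real.log z) - Real.log (Real.log X) :=
      Real.log_div hlz.ne' hlX.ne'
    have h3 : (Real.log z / Real.log X) ^ (1 / (d : ℝ)) =
        Real.exp ((Real.log (Real.log z) - Real.log (Real.log X)) * (1 / d)) := by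
      rw [Real.rpow_def_of_pos (by positivity), h2]
    rw [h3, ← Real.exp_add]
    apply Real.exp_le_exp.2
    have h4 : (1 / (d : ℝ)) * (Real.log (Real.log X) - Real.log (Real.log z) - M) ≤
        (1 / d) * ∑ p ∈ (Icc 1 X).filter (fun p => z < p ∧ p.Prime), (1 - 1 / (p : ℝ)) ^ 2 / p :=
      mul_le_mul_of_nonneg_left h1 (by positivity)
    have h5 : M / d = (1 / (d : ℝ)) * M := by ring
    rw [h5]
    linarith
  · have h1 : (1 : ℝ) ≤ Real.log z / Real.log X := by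
      rw [le_div_iff₀ hlX, one_mul]
      exact Real.log_le_log (by linarith) (by exact_mod_cast hzX)
    have h2 : (1 : ℝ) ≤ (Real.log z / Real.log X) ^ (1 / (d : ℝ)) :=
      Real.one_le_rpow h1 (by positivity)
    have h3 : (1 : ℝ) ≤ Real.exp (M / d) := Real.one_le_exp (by positivity)
    have h4 : Real.exp (-(1 / (d : ℝ)) *
        ∑ p ∈ (Icc 1 X).filter (fun p => z < p ∧ p.Prime), (1 - 1 / (p : ℝ)) ^ 2 / p) ≤ 1 := by
      apply Real.exp_le_one_iff.2
      have : 0 ≤ (1 / (d : ℝ)) *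
        ∑ p ∈ (Icc 1 X).filter (fun p => z < p ∧ p.Prime), (1 - 1 / (p : ℝ)) ^ 2 / p := by positivity
      linarith
    nlinarith

/-- **The number of the vectors without a good prime larger than `z`.** -/
theorem exc_bound (d r : ℕ) (hd : 2 ≤ d) : ∃ C : ℝ, 1 ≤ C ∧ ∀ (ι : Type) [Fintype ι]
    (Bad : (p : ℕ) → Set (ι → ZMod p)), Fintype.card ι = r → Few d Bad →
    ∀ z X Y : ℕ, 3 ≤ z → 3 ≤ X → X ≤ Y →
    ((Exc Bad X Y z).ncard : ℝ) ≤ C * (Real.log z / Real.log X) ^ (1 / (d : ℝ)) *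
      ((2 * X + 1) * (2 * Y + 1) ^ r) := by
  obtain ⟨C1, hC1, h1⟩ := mean_le
  obtain ⟨C2, hC2, h2⟩ := exp_le d hd
  have hd0 : (0 : ℝ) < d := by exact_mod_cast (by omega : 0 < d)
  have hd1 : (1 : ℝ) ≤ d := by exact_mod_cast (by omega : 1 ≤ d)
  refine ⟨1 + 2 ^ r * (C1 * C2), by
    have : 0 ≤ 2 ^ r * (C1 * C2) := by positivity
    linarith, ?_⟩
  intro ι _ Bad hι hBad z X Y hz hX hXY
  have h3 := exc_le d X Y z hBad hXY
  rw [hι] at h3
  have h4 := h1 (gz d z) (gz_nonneg d z hd) (gz_le_one d z) X hX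
  have h5 := h2 z X hz hX
  have hz3 : (3 : ℝ) ≤ z := by exact_mod_cast hz
  have hX3 : (3 : ℝ) ≤ X := by exact_mod_cast hX
  have hlX : 0 < Real.log X := Real.log_pos (by linarith)
  have hlz : 1 ≤ Real.log z := by
    rw [Real.le_log_iff_exp_le (by linarith)]
    have := Real.exp_one_lt_d9
    linarith
  set W := (Real.log z / Real.log X) ^ (1 / (d : ℝ)) with hW
  have hW0 : 0 < W := by
    rw [hW]
    positivity
  -- the term of the denominator zero
  have h6 : 1 ≤ W * (2 * X + 1) := by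
    have e1 : Real.log X ≤ X := (Real.log_le_sub_one_of_pos (by linarith)).trans (by linarith)
    have e2 : 1 / (X : ℝ) ≤ Real.log z / Real.log X := by
      rw [div_le_div_iff₀ (by linarith) hlX]
      nlinarith
    have e3 : (1 / (X : ℝ)) ^ (1 / (d : ℝ)) ≤ W :=
      Real.rpow_le_rpow (by positivity) e2 (by positivity)
    have e4 : 1 / (X : ℝ) ≤ (1 / (X : ℝ)) ^ (1 / (d : ℝ)) := by
      have e5 : 1 / (X : ℝ) ≤ 1 := by
        rw [div_le_one (by linarith)]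
        linarith
      have e6 : (1 : ℝ) / d ≤ 1 := by
        rw [div_le_one hd0]
        exact hd1
      calc 1 / (X : ℝ) = (1 / (X : ℝ)) ^ (1 : ℝ) := (Real.rpow_one _).symm
        _ ≤ _ := Real.rpow_le_rpow_of_exponent_ge (by positivity) e5 e6
    have e7 : 1 / (X : ℝ) ≤ W := e4.trans e3
    calc (1 : ℝ) = 1 / (X : ℝ) * X := by field_simp
      _ ≤ W * X := mul_le_mul_of_nonneg_right e7 (by linarith)
      _ ≤ W * (2 * X + 1) := mul_le_mul_of_nonneg_left (by linarith) hW0.le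
  have h7 : ∑ n ∈ Icc 1 X, wt (gz d z) n ≤ C1 * X * (C2 * W) :=
    h4.trans (mul_le_mul_of_nonneg_left h5 (by positivity))
  have hY0 : (0 : ℝ) < (2 * Y + 1) ^ r := by positivity
  calc ((Exc Bad X Y z).ncard : ℝ) ≤
      (2 * Y + 1) ^ r * (1 + 2 * 2 ^ r * ∑ n ∈ Icc 1 X, wt (gz d z) n) := h3
    _ ≤ (2 * Y + 1) ^ r * (W * (2 * X + 1) + 2 * 2 ^ r * (C1 * X * (C2 * W))) := by
        refine mul_le_mul_of_nonneg_left ?_ hY0.le
        refine add_le_add h6 (mul_le_mul_of_nonneg_left h7 (by positivity))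
    _ ≤ (2 * Y + 1) ^ r * (W * (2 * X + 1) + 2 ^ r * (C1 * (C2 * W)) * (2 * X + 1)) := by
        refine mul_le_mul_of_nonneg_left ?_ hY0.le
        have : 0 ≤ 2 ^ r * (C1 * (C2 * W)) := by positivity
        nlinarith
    _ = _ := by ring

/-- all vectors -/
lemma all_le {ι : Type} [Fintype ι] (X Y : ℕ) (S : Set (ℤ × (ι → ℤ)))
    (hS : ∀ c ∈ S, |c.1| ≤ (X : ℤ) ∧ ∀ i, |c.2 i| ≤ (Y : ℤ)) :
    (S.ncard : ℝ) ≤ (2 * X + 1) * (2 * Y + 1) ^ Fintype.card ι := by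
  refine (exc_sum X Y S hS).trans ?_
  calc ∑ b ∈ Icc (-(X : ℤ)) X, ({v : ι → ℤ | (b, v) ∈ S}.ncard : ℝ) ≤
      ∑ _b ∈ Icc (-(X : ℤ)) X, (2 * (Y : ℝ) + 1) ^ Fintype.card ι := by
        refine sum_le_sum fun b _ => box_card Y _ fun v hv i => (hS _ hv).2 i
    _ = _ := by
      rw [sum_const, Int.card_Icc, nsmul_eq_mul]
      have h2 : ((X : ℤ) + 1 - -(X : ℤ)).toNat = 2 * X + 1 := by omega
      rw [h2]
      push_cast
      ring

/-- **The number of the vectors without a good prime `p` with `log p ≥ u log X`.** -/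
theorem exc_final (d r : ℕ) (hd : 2 ≤ d) : ∃ C : ℝ, 1 ≤ C ∧ ∀ (ι : Type) [Fintype ι]
    (Bad : (p : ℕ) → Set (ι → ZMod p)), Fintype.card ι = r → Few d Bad →
    ∀ (X Y : ℕ) (u : ℝ), 2 ≤ X → X ≤ Y →
    0 < u → ∀ S : Set (ℤ × (ι → ℤ)), (∀ c ∈ S, |c.1| ≤ (X : ℤ) ∧
      (∀ i, |c.2 i| ≤ (Y : ℤ)) ∧ (c.1 = 0 ∨ ∀ p : ℕ, p.Prime →
        u * Real.log X ≤ Real.log p → (p : ℤ) ∣ c.1 → (fun i => (c.2 i : ZMod p)) ∈ Bad p)) →
    (S.ncard : ℝ) ≤ C * (u + 1 / Real.log X) ^ (1 / (d : ℝ)) *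
      ((2 * X + 1) * (2 * Y + 1) ^ r) := by
  obtain ⟨C, hC, h⟩ := exc_bound d r hd
  have hd0 : (0 : ℝ) < d := by exact_mod_cast (by omega : 0 < d)
  refine ⟨C * 2 ^ (1 / (d : ℝ)), ?_, ?_⟩
  · have : (1 : ℝ) ≤ 2 ^ (1 / (d : ℝ)) := Real.one_le_rpow (by norm_num) (by positivity)
    nlinarith
  intro ι _ Bad hι hBad X Y u hX hXY hu S hS
  have hX2 : (2 : ℝ) ≤ X := by exact_mod_cast hX
  have hlX : 0 < Real.log X := Real.log_pos (by linarith)
  have hbox : (0 : ℝ) < (2 * X + 1) * (2 * Y + 1) ^ r := by positivity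
  have h20 : (0 : ℝ) < 2 ^ (1 / (d : ℝ)) := by positivity
  rcases Nat.lt_or_ge X 3 with hX3 | hX3
  · have hXe : X = 2 := by omega
    have e1 : 1 ≤ u + 1 / Real.log X := by
      have e2 : Real.log X ≤ 1 := by
        rw [hXe]
        have := Real.log_two_lt_d9
        push_cast
        linarith
      have e3 : 1 ≤ 1 / Real.log X := by
        rw [le_div_iff₀ hlX, one_mul]
        exact e2
      linarith
    have e4 : 1 ≤ (u + 1 / Real.log X) ^ (1 / (d : ℝ)) := Real.one_le_rpow e1 (by positivity)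
    have e5 : (1 : ℝ) ≤ 2 ^ (1 / (d : ℝ)) := Real.one_le_rpow (by norm_num) (by positivity)
    have e6 : (1 : ℝ) ≤ C * 2 ^ (1 / (d : ℝ)) := by nlinarith
    have e7 : (1 : ℝ) ≤ C * 2 ^ (1 / (d : ℝ)) * (u + 1 / Real.log X) ^ (1 / (d : ℝ)) := by nlinarith
    calc (S.ncard : ℝ) ≤ 1 * ((2 * X + 1) * (2 * Y + 1) ^ r) := by
          rw [one_mul, ← hι]
          exact all_le X Y S fun c hc => ⟨(hS c hc).1, (hS c hc).2.1⟩
      _ ≤ _ := mul_le_mul_of_nonneg_right e7 hbox.le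
  · set z : ℕ := max 3 ⌊(X : ℝ) ^ u⌋₊ with hz
    have hz3 : 3 ≤ z := le_max_left _ _
    have hsub : S ⊆ Exc Bad X Y z := by
      intro c hc
      obtain ⟨a1, a2, a3⟩ := hS c hc
      refine ⟨a1, a2, ?_⟩
      rcases a3 with a3 | a3
      · exact Or.inl a3
      · refine Or.inr fun p hp hzp hpc => a3 p hp ?_ hpc
        have b1 : ⌊(X : ℝ) ^ u⌋₊ < p := lt_of_le_of_lt (le_max_right _ _) hzp
        have b2 : (X : ℝ) ^ u < p := (Nat.floor_lt (by positivity)).1 b1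
        calc u * Real.log X = Real.log ((X : ℝ) ^ u) := (Real.log_rpow (by linarith) u).symm
          _ ≤ Real.log p := Real.log_le_log (by positivity) b2.le
    have hfin : (Exc Bad X Y z).Finite := box_finite X Y _ fun c hc => ⟨hc.1, hc.2.1⟩
    have h1 : (S.ncard : ℝ) ≤ ((Exc Bad X Y z).ncard : ℝ) := by
      exact_mod_cast Set.ncard_le_ncard hsub hfin
    refine h1.trans ((h ι Bad hι hBad z X Y hz3 hX3 hXY).trans ?_)
    refine mul_le_mul_of_nonneg_right ?_ hbox.le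
    have hl3 : Real.log 3 ≤ 2 := by
      have := Real.log_le_sub_one_of_pos (show (0 : ℝ) < 3 by norm_num)
      linarith
    have hz1 : Real.log z ≤ u * Real.log X + 2 := by
      have hzr : (z : ℝ) ≤ max 3 ((X : ℝ) ^ u) := by
        rw [hz, Nat.cast_max]
        exact max_le_max (by norm_num) (Nat.floor_le (by positivity))
      have hz0 : (0 : ℝ) < z := by exact_mod_cast (by omega : 0 < z)
      refine (Real.log_le_log hz0 hzr).trans ?_
      have hp : 0 < u * Real.log X := by positivity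
      rcases max_cases (3 : ℝ) ((X : ℝ) ^ u) with ⟨e, _⟩ | ⟨e, _⟩
      · rw [e]
        linarith
      · rw [e, Real.log_rpow (by linarith)]
        linarith
    have hlz0 : 0 ≤ Real.log z := Real.log_natCast_nonneg z
    have h2 : Real.log z / Real.log X ≤ 2 * (u + 1 / Real.log X) := by
      rw [div_le_iff₀ hlX]
      have : 2 * (u + 1 / Real.log X) * Real.log X = 2 * (u * Real.log X) + 2 := by
        field_simp
      rw [this]
      have hp : 0 < u * Real.log X := by positivity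
      linarith
    have h3 : (Real.log z / Real.log X) ^ (1 / (d : ℝ)) ≤
        2 ^ (1 / (d : ℝ)) * (u + 1 / Real.log X) ^ (1 / (d : ℝ)) := by
      rw [← Real.mul_rpow (by norm_num) (by positivity)]
      exact Real.rpow_le_rpow (by positivity) h2 (by positivity)
    calc C * (Real.log z / Real.log X) ^ (1 / (d : ℝ)) ≤
        C * (2 ^ (1 / (d : ℝ)) * (u + 1 / Real.log X) ^ (1 / (d : ℝ))) :=
          mul_le_mul_of_nonneg_left h3 (by linarith)
      _ = _ := by ring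

end Pool.Agent.D0H55.LL
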