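import Mathlib

/-!
# The height of a vector of integers of a number field
-/

set_option autoImplicit false

namespace Pool.Agent.D0H55.LL

open NumberField Module Height

lemma finprod_le_one_real {α : Type*} (f : α → ℝ) (h0 : ∀ a, 0 ≤ f a) (h1 : ∀ a, f a ≤ 1) :
    ∏ᶠ a, f a ≤ 1 := by
  by_cases h : (Function.mulSupport f).Finite
  · rw [finprod_eq_prod_of_mulSupport_toFinset_subset f h (Finset.Subset.refl _)]
    exact Finset.prod_le_one (fun a _ => h0 a) fun a _ => h1 a
  · rw [finprod_of_infinite_mulSupport h]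

variable {K : Type} [Field K] [NumberField K]

lemma finite_le_one (v : FinitePlace K) (x : 𝓞 K) : v (x : K) ≤ 1 := by
  rw [← FinitePlace.norm_embedding_eq v (x : K)]
  exact FinitePlace.norm_le_one K v.maximalIdeal x

lemma inf_int (v : InfinitePlace K) (n : ℤ) : v (n : K) = |(n : ℝ)| := by
  rw [← InfinitePlace.norm_embedding_eq, map_intCast, Complex.norm_intCast]

/-- the sizes of the basis -/
noncomputable def size {J : Type} [Fintype J] (ω : Basis J ℤ (𝓞 K)) : ℝ :=
  1 + ∑ v : InfinitePlace K, ∑ j, v (ω j : K)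

lemma one_le_size {J : Type} [Fintype J] (ω : Basis J ℤ (𝓞 K)) : 1 ≤ size ω := by
  unfold size
  have : 0 ≤ ∑ v : InfinitePlace K, ∑ j, v (ω j : K) :=
    Finset.sum_nonneg fun v _ => Finset.sum_nonneg fun j _ => apply_nonneg v _
  linarith

lemma inf_le {J : Type} [Fintype J] (ω : Basis J ℤ (𝓞 K)) (X : ℕ) (x : 𝓞 K)
    (hx : ∀ j, |ω.repr x j| ≤ (X : ℤ)) (v : InfinitePlace K) : v (x : K) ≤ size ω * X := by
  have h1 : (x : K) = ∑ j, ((ω.repr x j : ℤ) : K) * (ω j : K) := by
    conv_lhs => rw [← ω.sum_repr x]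
    simp
  rw [h1]
  have h2 : v (∑ j, ((ω.repr x j : ℤ) : K) * (ω j : K)) ≤
      ∑ j, v (((ω.repr x j : ℤ) : K) * (ω j : K)) := by
    have := v.1.sum_le Finset.univ fun j => ((ω.repr x j : ℤ) : K) * (ω j : K)
    exact this
  refine h2.trans ?_
  have h3 : ∑ j, v (((ω.repr x j : ℤ) : K) * (ω j : K)) ≤ ∑ j, (X : ℝ) * v (ω j : K) := by
    refine Finset.sum_le_sum fun j _ => ?_
    rw [map_mul, inf_int]
    refine mul_le_mul_of_nonneg_right ?_ (apply_nonneg v _)
    exact_mod_cast hx j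
  refine h3.trans ?_
  rw [← Finset.mul_sum, mul_comm]
  refine mul_le_mul_of_nonneg_right ?_ (Nat.cast_nonneg _)
  unfold size
  have h4 : ∑ j, v (ω j : K) ≤ ∑ v : InfinitePlace K, ∑ j, v (ω j : K) :=
    Finset.single_le_sum (f := fun v : InfinitePlace K => ∑ j, v (ω j : K))
      (fun v _ => Finset.sum_nonneg fun j _ => apply_nonneg v _) (Finset.mem_univ v)
  linarith

/-- **The height of the vector of the coefficients.** -/
theorem height_le {J : Type} [Fintype J] (ω : Basis J ℤ (𝓞 K)) {N : ℕ} (X : ℕ) (hX : 1 ≤ X)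
    (b : ℤ) (hb : b ≠ 0) (hbX : |b| ≤ (X : ℤ)) (c : Fin N → 𝓞 K)
    (hc : ∀ i j, |ω.repr (c i) j| ≤ (X : ℤ)) :
    logHeight (Fin.cons (b : K) (fun i => (c i : K)) : Fin (N + 1) → K) ≤
      finrank ℚ K * (Real.log (size ω) + Real.log X) := by
  set w : Fin (N + 1) → K := Fin.cons (b : K) (fun i => (c i : K)) with hw
  have hw0 : w ≠ 0 := by
    intro h
    have h1 : w 0 = 0 := by rw [h]; rfl
    rw [hw, Fin.cons_zero] at h1
    exact hb (by exact_mod_cast h1)
  have hX1 : (1 : ℝ) ≤ X := by exact_mod_cast hX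
  have hs := one_le_size ω
  have h1 : ∀ (v : InfinitePlace K) (i : Fin (N + 1)), v (w i) ≤ size ω * X := by
    intro v i
    refine Fin.cases ?_ (fun i => ?_) i
    · rw [hw, Fin.cons_zero, inf_int]
      have h2 : |(b : ℝ)| ≤ X := by exact_mod_cast hbX
      nlinarith
    · rw [hw, Fin.cons_succ]
      exact inf_le ω X (c i) (hc i) v
  have h2 : ∀ (v : FinitePlace K) (i : Fin (N + 1)), v (w i) ≤ 1 := by
    intro v i
    refine Fin.cases ?_ (fun i => ?_) i
    · rw [hw, Fin.cons_zero]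
      have := finite_le_one v (b : 𝓞 K)
      simpa using this
    · rw [hw, Fin.cons_succ]
      exact finite_le_one v (c i)
  have h3 : ∏ᶠ v : FinitePlace K, ⨆ i, v (w i) ≤ 1 := by
    refine finprod_le_one_real _ (fun v => ?_) fun v => ?_
    · exact Real.iSup_nonneg fun i => apply_nonneg v _
    · exact ciSup_le fun i => h2 v i
  have h30 : 0 ≤ ∏ᶠ v : FinitePlace K, ⨆ i, v (w i) :=
    finprod_nonneg fun v => Real.iSup_nonneg fun i => apply_nonneg v _
  have h4 : ∏ v : InfinitePlace K, (⨆ i, v (w i)) ^ v.mult ≤ (size ω * X) ^ finrank ℚ K := by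
    calc ∏ v : InfinitePlace K, (⨆ i, v (w i)) ^ v.mult ≤
        ∏ v : InfinitePlace K, (size ω * X) ^ v.mult := by
          refine Finset.prod_le_prod (fun v _ => ?_) fun v _ => ?_
          · exact pow_nonneg (Real.iSup_nonneg fun i => apply_nonneg v _) _
          · exact pow_le_pow_left₀ (Real.iSup_nonneg fun i => apply_nonneg v _)
              (ciSup_le fun i => h1 v i) _
      _ = _ := by
          rw [Finset.prod_pow_eq_pow_sum, InfinitePlace.sum_mult_eq]
  have h5 : mulHeight w ≤ (size ω * X) ^ finrank ℚ K := by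
    rw [NumberField.mulHeight_eq hw0]
    calc _ ≤ (size ω * X) ^ finrank ℚ K * 1 := by
          refine mul_le_mul h4 h3 h30 (by positivity)
      _ = _ := mul_one _
  have h6 : 0 < mulHeight w := mulHeight_pos w
  rw [logHeight_eq_log_mulHeight]
  calc Real.log (mulHeight w) ≤ Real.log ((size ω * X) ^ finrank ℚ K) := Real.log_le_log h6 h5
    _ = _ := by
      rw [Real.log_pow, Real.log_mul (by linarith) (by linarith)]

end Pool.Agent.D0H55.LL
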