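import Pool.Agent.D0H55.LL.Irr
import Pool.Agent.D0H55.LL.Est
import Pool.Agent.TH377.Dyn.Lehmer

/-!
# The vectors which are bad modulo a prime number
-/

set_option autoImplicit false

namespace Pool.Agent.D0H55.LL

open Polynomial NumberField IsDedekindDomain Module Pool.Agent.TH377.Sup Pool.Agent.TH377.Dyn

section residue

theorem fiber_card {G H : Type} [AddCommGroup G] [Fintype G] [AddCommGroup H] [Fintype H]
    [DecidableEq H] (f : G →+ H) (hf : Function.Surjective f) (y : H) :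
    (Finset.univ.filter fun x => f x = y).card * Fintype.card H = Fintype.card G := by
  have h1 := Finset.card_eq_sum_card_fiberwise (f := f) (s := Finset.univ) (t := Finset.univ)
    (fun x _ => by simp)
  rw [Finset.card_univ] at h1
  rw [h1]
  have h2 : ∀ z : H, (Finset.univ.filter fun x => f x = z).card =
      (Finset.univ.filter fun x => f x = y).card := fun z =>
    AddMonoidHom.card_fiber_eq_of_mem_range f (hf z) (hf y)
  rw [Finset.sum_congr rfl fun z _ => h2 z, Finset.sum_const, Finset.card_univ, smul_eq_mul,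
    mul_comm]

open Classical in
theorem card_preim {G H : Type} [AddCommGroup G] [Fintype G] [AddCommGroup H] [Fintype H]
    (f : G →+ H) (hf : Function.Surjective f) (Z : Set H) :
    {x | f x ∈ Z}.ncard * Fintype.card H = Z.ncard * Fintype.card G := by
  have e1 : {x | f x ∈ Z}.ncard = (Finset.univ.filter fun x => f x ∈ Z).card := by
    rw [← Set.ncard_coe_finset]
    congr 1
    ext x
    simp
  have e2 : Z.ncard = (Finset.univ.filter fun z => z ∈ Z).card := by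
    rw [← Set.ncard_coe_finset]
    congr 1
    ext x
    simp
  have h1 : (Finset.univ.filter fun x => f x ∈ Z).card =
      ∑ z ∈ (Finset.univ.filter fun z => z ∈ Z),
        ((Finset.univ.filter fun x => f x ∈ Z).filter fun x => f x = z).card := by
    apply Finset.card_eq_sum_card_fiberwise
    intro x hx
    rw [Finset.mem_coe, Finset.mem_filter] at hx
    rw [Finset.mem_coe, Finset.mem_filter]
    exact ⟨Finset.mem_univ _, hx.2⟩
  rw [e1, e2, h1, Finset.sum_mul, ← smul_eq_mul, ← Finset.sum_const]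
  refine Finset.sum_congr rfl fun z hz => ?_
  rw [Finset.mem_filter] at hz
  rw [← fiber_card f hf z]
  congr 2
  ext x
  simp only [Finset.mem_filter, Finset.mem_univ, true_and]
  constructor
  · exact fun h => h.2
  · intro h
    exact ⟨by rw [h]; exact hz.2, h⟩

end residue

variable {K : Type} [Field K] [NumberField K]

/-- there is a prime of `K` above every prime number -/
lemma exists_above (K : Type) [Field K] [NumberField K] (p : ℕ) (hp : p.Prime) :
    ∃ v : HeightOneSpectrum (𝓞 K), (p : 𝓞 K) ∈ v.asIdeal := by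
  have : Fact p.Prime := ⟨hp⟩
  have hmax : (Ideal.span {(p : ℤ)}).IsMaximal := by
    apply PrincipalIdealRing.isMaximal_of_irreducible
    exact (Nat.prime_iff_prime_int.1 hp).irreducible
  obtain ⟨Q, hQ, hle⟩ := Ideal.exists_maximal_ideal_liesOver_of_isIntegral (S := 𝓞 K)
    (Ideal.span {(p : ℤ)})
  have hpQ : (p : 𝓞 K) ∈ Q := by
    have h1 : (p : ℤ) ∈ Ideal.span {(p : ℤ)} := Ideal.mem_span_singleton_self _
    have h2 := (Ideal.mem_of_liesOver Q (Ideal.span {(p : ℤ)}) (p : ℤ)).1 h1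
    simpa using h2
  refine ⟨⟨Q, hQ.isPrime, ?_⟩, hpQ⟩
  intro h
  rw [h, Ideal.mem_bot] at hpQ
  exact hp.ne_zero (by exact_mod_cast hpQ)

/-- the norm of a prime above `p` is at least `p` -/
lemma le_norm (v : HeightOneSpectrum (𝓞 K)) (p : ℕ) (hp : p.Prime) (hpv : (p : 𝓞 K) ∈ v.asIdeal) :
    p ≤ Ideal.absNorm v.asIdeal := by
  have : v.asIdeal.IsMaximal := v.isMaximal
  have hfin : Finite (𝓞 K ⧸ v.asIdeal) := Ideal.finiteQuotientOfFreeOfNeBot _ v.ne_bot
  let _ : Field (𝓞 K ⧸ v.asIdeal) := Ideal.Quotient.field _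
  have : Fact p.Prime := ⟨hp⟩
  have h0 : ((p : ℕ) : 𝓞 K ⧸ v.asIdeal) = 0 := by
    rw [← map_natCast (Ideal.Quotient.mk v.asIdeal)]
    exact Ideal.Quotient.eq_zero_iff_mem.2 hpv
  have hchar : CharP (𝓞 K ⧸ v.asIdeal) p := (CharP.charP_iff_prime_eq_zero hp).2 h0
  have h1 : Function.Injective (ZMod.castHom (dvd_refl p) (𝓞 K ⧸ v.asIdeal)) :=
    RingHom.injective _
  have h2 := Nat.card_le_card_of_injective _ h1
  rw [Nat.card_zmod] at h2
  exact h2

/-- the coordinates modulo `p` of a vector of integers of `K` -/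
noncomputable def coordP {J : Type} (ω : Basis J ℤ (𝓞 K)) {d : ℕ} (y : Fin (d + 1) → 𝓞 K)
    (p : ℕ) : Fin (d + 1) × J → ZMod p :=
  fun i => ((ω.repr (y i.1) i.2 : ℤ) : ZMod p)

/-- no prime above `p` is good for the vectors with these coordinates -/
def BadK {J : Type} (ω : Basis J ℤ (𝓞 K)) (d p : ℕ) : Set (Fin (d + 1) × J → ZMod p) :=
  {x | ∀ v : HeightOneSpectrum (𝓞 K), (p : 𝓞 K) ∈ v.asIdeal → ∀ y : Fin (d + 1) → 𝓞 K,
    coordP ω y p = x → ¬ IrrMod v d y}

theorem few_bad {J : Type} [Fintype J] (ω : Basis J ℤ (𝓞 K)) (d : ℕ) (hd : 2 ≤ d) :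
    Few d (BadK ω d) := by
  classical
  intro p hp
  obtain ⟨v, hpv⟩ := exists_above K p hp
  have hmax : v.asIdeal.IsMaximal := v.isMaximal
  have hfin : Finite (𝓞 K ⧸ v.asIdeal) := Ideal.finiteQuotientOfFreeOfNeBot _ v.ne_bot
  let _ : Field (𝓞 K ⧸ v.asIdeal) := Ideal.Quotient.field _
  have hft : Fintype (𝓞 K ⧸ v.asIdeal) := Fintype.ofFinite _
  have : Fact p.Prime := ⟨hp⟩
  have h0 : ((p : ℕ) : 𝓞 K ⧸ v.asIdeal) = 0 := by
    rw [← map_natCast (Ideal.Quotient.mk v.asIdeal)]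
    exact Ideal.Quotient.eq_zero_iff_mem.2 hpv
  have hchar : CharP (𝓞 K ⧸ v.asIdeal) p := (CharP.charP_iff_prime_eq_zero hp).2 h0
  let F : (Fin (d + 1) × J → ZMod p) →+ (Fin (d + 1) → 𝓞 K ⧸ v.asIdeal) :=
    { toFun := fun x i => ∑ j, ZMod.castHom (dvd_refl p) (𝓞 K ⧸ v.asIdeal) (x (i, j)) *
        Ideal.Quotient.mk v.asIdeal (ω j)
      map_zero' := by
        funext i
        simp
      map_add' := by
        intro x y
        funext i
        simp only [Pi.add_apply, map_add, add_mul, Finset.sum_add_distrib] }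
  have hF : ∀ y : Fin (d + 1) → 𝓞 K, F (coordP ω y p) = fun i => Ideal.Quotient.mk v.asIdeal (y i) := by
    intro y
    funext i
    change ∑ j, ZMod.castHom (dvd_refl p) (𝓞 K ⧸ v.asIdeal) ((ω.repr (y i) j : ℤ) : ZMod p) *
        Ideal.Quotient.mk v.asIdeal (ω j) = _
    conv_rhs => rw [← ω.sum_repr (y i), map_sum]
    refine Finset.sum_congr rfl fun j _ => ?_
    rw [map_intCast, zsmul_eq_mul, map_mul, map_intCast]
  have hsurj : Function.Surjective F := by
    intro t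
    choose y hy using fun i => Ideal.Quotient.mk_surjective (t i)
    refine ⟨coordP ω y p, ?_⟩
    rw [hF]
    funext i
    exact hy i
  have hlift : ∀ x : Fin (d + 1) × J → ZMod p, ∃ y : Fin (d + 1) → 𝓞 K, coordP ω y p = x := by
    intro x
    refine ⟨fun i => ∑ j, ((x (i, j)).val : ℤ) • ω j, ?_⟩
    funext i
    unfold coordP
    have h1 : ω.repr (∑ j, ((x (i.1, j)).val : ℤ) • ω j) i.2 = ((x (i.1, i.2)).val : ℤ) := by
      have := ω.repr_sum_self fun j => ((x (i.1, j)).val : ℤ)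
      exact congrFun this i.2
    rw [h1, Int.cast_natCast, ZMod.natCast_val, ZMod.cast_id', id]
  have hsub : BadK ω d p ⊆ {x | F x ∈ (Irr (𝓞 K ⧸ v.asIdeal) d)ᶜ} := by
    intro x hx
    obtain ⟨y, hy⟩ := hlift x
    have h1 := hx v hpv y hy
    change F x ∉ Irr (𝓞 K ⧸ v.asIdeal) d
    intro h2
    apply h1
    rw [← hy, hF] at h2
    refine ⟨?_, h2.2⟩
    intro h3
    exact h2.1 (Ideal.Quotient.eq_zero_iff_mem.2 h3)
  have h1 := Set.ncard_le_ncard hsub (Set.toFinite _)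
  have h2 := card_preim F hsurj ((Irr (𝓞 K ⧸ v.asIdeal) d)ᶜ)
  have h3 := bad_card (𝓞 K ⧸ v.asIdeal) d hd
  set q := Nat.card (𝓞 K ⧸ v.asIdeal) with hq
  have hqp : p ≤ q := le_norm v p hp hpv
  have hcG : Fintype.card (Fin (d + 1) × J → ZMod p) = p ^ Fintype.card (Fin (d + 1) × J) := by
    rw [Fintype.card_fun, ZMod.card]
  have hcH : Fintype.card (Fin (d + 1) → 𝓞 K ⧸ v.asIdeal) = q ^ (d + 1) := by
    rw [Fintype.card_fun, Fintype.card_fin, ← Nat.card_eq_fintype_card]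
  rw [hcG, hcH] at h2
  have hp0 : (0 : ℝ) < p := by exact_mod_cast hp.pos
  have hp1 : (1 : ℝ) ≤ p := by exact_mod_cast hp.one_le
  have hq0 : (0 : ℝ) < q := by exact_mod_cast hp.pos.trans_le hqp
  have hqp' : (p : ℝ) ≤ q := by exact_mod_cast hqp
  have h4 : ({x | F x ∈ (Irr (𝓞 K ⧸ v.asIdeal) d)ᶜ}.ncard : ℝ) * (q : ℝ) ^ (d + 1) =
      ((Irr (𝓞 K ⧸ v.asIdeal) d)ᶜ.ncard : ℝ) * (p : ℝ) ^ Fintype.card (Fin (d + 1) × J) := by
    exact_mod_cast h2
  have h5 : ({x | F x ∈ (Irr (𝓞 K ⧸ v.asIdeal) d)ᶜ}.ncard : ℝ) * (q : ℝ) ^ (d + 1) ≤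
      ((1 - (1 - 1 / (q : ℝ)) ^ 2 / d) * (p : ℝ) ^ Fintype.card (Fin (d + 1) × J)) *
        (q : ℝ) ^ (d + 1) := by
    rw [h4]
    calc _ ≤ ((1 - (1 - 1 / (q : ℝ)) ^ 2 / d) * (q : ℝ) ^ (d + 1)) *
        (p : ℝ) ^ Fintype.card (Fin (d + 1) × J) := mul_le_mul_of_nonneg_right h3 (by positivity)
      _ = _ := by ring
  have h6 := le_of_mul_le_mul_right h5 (by positivity)
  have h7 : (1 - (1 - 1 / (q : ℝ)) ^ 2 / d) ≤ gd d p := by
    unfold gd
    have e1 : 1 / (q : ℝ) ≤ 1 / (p : ℝ) := one_div_le_one_div_of_le hp0 hqp'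
    have e2 : 1 / (p : ℝ) ≤ 1 := by
      rw [div_le_one hp0]
      exact hp1
    have e3 : (1 - 1 / (p : ℝ)) ^ 2 ≤ (1 - 1 / (q : ℝ)) ^ 2 :=
      pow_le_pow_left₀ (by linarith) (by linarith) 2
    have e4 : (1 - 1 / (p : ℝ)) ^ 2 / d ≤ (1 - 1 / (q : ℝ)) ^ 2 / d :=
      div_le_div_of_nonneg_right e3 (Nat.cast_nonneg _)
    linarith
  calc ((BadK ω d p).ncard : ℝ) ≤ ({x | F x ∈ (Irr (𝓞 K ⧸ v.asIdeal) d)ᶜ}.ncard : ℝ) := by
        exact_mod_cast h1
    _ ≤ (1 - (1 - 1 / (q : ℝ)) ^ 2 / d) * (p : ℝ) ^ Fintype.card (Fin (d + 1) × J) := h6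
    _ ≤ _ := mul_le_mul_of_nonneg_right h7 (by positivity)

/-- a vector which is not bad has a good prime -/
lemma good_of {J : Type} [Fintype J] (ω : Basis J ℤ (𝓞 K)) (d p : ℕ)
    (y : Fin (d + 1) → 𝓞 K) (h : coordP ω y p ∉ BadK ω d p) :
    ∃ v : HeightOneSpectrum (𝓞 K), (p : 𝓞 K) ∈ v.asIdeal ∧ IrrMod v d y := by
  classical
  unfold BadK at h
  rw [Set.mem_ofPred_eq] at h
  push Not at h
  obtain ⟨v, hpv, y', hy', hirr⟩ := h
  refine ⟨v, hpv, ?_⟩
  have key : ∀ i, Ideal.Quotient.mk v.asIdeal (y i) = Ideal.Quotient.mk v.asIdeal (y' i) := by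
    intro i
    rw [Ideal.Quotient.eq]
    have h1 : ∀ j, ∃ m : ℤ, ω.repr (y i) j - ω.repr (y' i) j = (p : ℤ) * m := by
      intro j
      have h2 : ((ω.repr (y' i) j : ℤ) : ZMod p) = ((ω.repr (y i) j : ℤ) : ZMod p) :=
        congrFun hy' (i, j)
      have h3 : ((ω.repr (y i) j - ω.repr (y' i) j : ℤ) : ZMod p) = 0 := by
        rw [Int.cast_sub, h2, sub_self]
      exact (ZMod.intCast_zmod_eq_zero_iff_dvd _ _).1 h3
    choose m hm using h1
    have h4 : y i - y' i = (p : 𝓞 K) * ∑ j, (m j) • ω j := by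
      rw [← ω.sum_repr (y i - y' i), Finset.mul_sum]
      refine Finset.sum_congr rfl fun j _ => ?_
      rw [map_sub, Finsupp.sub_apply, hm j, mul_smul]
      rw [zsmul_eq_mul, Int.cast_natCast]
    rw [h4]
    exact Ideal.mul_mem_right _ _ hpv
  refine ⟨?_, ?_⟩
  · intro h5
    apply hirr.1
    rw [← Ideal.Quotient.eq_zero_iff_mem, ← key, Ideal.Quotient.eq_zero_iff_mem]
    exact h5
  · have h6 : (fun i => Ideal.Quotient.mk v.asIdeal (y i)) =
        fun i => Ideal.Quotient.mk v.asIdeal (y' i) := funext key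
    rw [h6]
    exact hirr.2

end Pool.Agent.D0H55.LL
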