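import Pool.Agent.D0H55.LL.Loc

/-!
# The inequality for almost all polynomials
-/

set_option autoImplicit false

namespace Pool.Agent.D0H55.LL

open Polynomial NumberField IsDedekindDomain Module Filter Topology Height
open Pool.Agent.TH377.Sup Pool.Agent.TH377.Dyn

variable {K : Type} [Field K]

/-- the polynomial `(c₀ + … + c_d x^d) / b` -/
noncomputable def poly {d : ℕ} (b : ℤ) (c : Fin (d + 1) → 𝓞 K) : K[X] :=
  C ((b : K)⁻¹) * ∑ i : Fin (d + 1), C (c i : K) * X ^ (i : ℕ)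

lemma poly_eq {d : ℕ} (b : ℤ) (c : Fin (d + 1) → 𝓞 K) :
    poly b c = phi (Fin.cons (b : 𝓞 K) c : Fin (d + 2) → 𝓞 K) := by
  unfold poly phi
  simp only [Fin.cons_zero, Fin.cons_succ]
  congr 3

variable [NumberField K]

lemma poly_degree {d : ℕ} (b : ℤ) (c : Fin (d + 1) → 𝓞 K) (hb : b ≠ 0)
    (v : HeightOneSpectrum (𝓞 K)) (h : IrrMod v d c) : (poly b c).natDegree = d := by
  have h0 : (b : K) ≠ 0 := by exact_mod_cast hb
  have h2 : ((b : K)⁻¹) ≠ 0 := inv_ne_zero h0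
  rw [poly, natDegree_C_mul h2]
  have h3 : IrrMod v d (fun i : Fin (d + 1) => (Fin.cons (b : 𝓞 K) c : Fin (d + 2) → 𝓞 K) i.succ) := by
    simpa only [Fin.cons_succ] using h
  have h4 := (num_facts (Fin.cons (b : 𝓞 K) c : Fin (d + 2) → 𝓞 K) v h3).1
  have h1 : (∑ i : Fin (d + 1), C (c i : K) * X ^ (i : ℕ) : K[X]) =
      (num (Fin.cons (b : 𝓞 K) c : Fin (d + 2) → 𝓞 K)).map (algebraMap (𝓞 K) K) := by
    rw [num, pol_map]
    simp only [Fin.cons_succ]
    rfl
  rw [h1, natDegree_map_eq_of_injective (FaithfulSMul.algebraMap_injective (𝓞 K) K)]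
  exact h4

/-- the inequality at one polynomial, from one good prime -/
theorem of_good {d : ℕ} (hd : 2 ≤ d) (B : ℝ) (hB : 0 < B) (b : ℤ) (hb : b ≠ 0)
    (c : Fin (d + 1) → 𝓞 K) (p : ℕ) (hp : p.Prime) (hpb : (p : ℤ) ∣ b)
    (v : HeightOneSpectrum (𝓞 K)) (hpv : (p : 𝓞 K) ∈ v.asIdeal) (h : IrrMod v d c)
    (hN : B * d * finrank ℚ K ≤ Real.log p)
    {L : Type} [Field L] [NumberField L] [Algebra K L] (x : L) (hL : ¬ d ∣ finrank K L) :
    ∃ r : ℝ, Tendsto (fun n : ℕ => logHeight₁ ((fun y => aeval y (poly b c))^[n] x) /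
        ((finrank ℚ L : ℝ) * ((poly b c).natDegree : ℝ) ^ n)) atTop (𝓝 r) ∧ B / finrank K L ≤ r ∧
      (IsGalois K L → B ≤ r) := by
  rw [poly_degree b c hb v h, poly_eq]
  refine lehmer hd B hB (Fin.cons (b : 𝓞 K) c : Fin (d + 2) → 𝓞 K) v ?_ ?_ ?_ ?_ x hL
  · rw [Fin.cons_zero]
    exact_mod_cast hb
  · rw [Fin.cons_zero]
    obtain ⟨m, rfl⟩ := hpb
    rw [Int.cast_mul, Int.cast_natCast]
    exact Ideal.mul_mem_right _ _ hpv
  · simpa only [Fin.cons_succ] using h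
  · refine hN.trans ?_
    have h1 := le_norm v p hp hpv
    exact Real.log_le_log (by exact_mod_cast hp.pos) (by exact_mod_cast h1)

/-- preperiodic points have canonical height zero -/
lemma zero_of_preperiodic {L : Type} [Field L] [NumberField L] (f : L → L) (x : L) (m n : ℕ)
    (hmn : m < n) (h : f^[m] x = f^[n] x) (a e : ℝ) (ha : 0 < a) (he : 1 < e) (r : ℝ)
    (hr : Tendsto (fun k : ℕ => logHeight₁ (f^[k] x) / (a * e ^ k)) atTop (𝓝 r)) : r = 0 := by
  have hfin : (Set.range fun k : ℕ => f^[k] x).Finite := by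
    have hsub : (Set.range fun k : ℕ => f^[k] x) ⊆ (fun k : ℕ => f^[k] x) '' (Set.Iio n) := by
      rintro _ ⟨k, rfl⟩
      induction k using Nat.strong_induction_on with
      | _ k ih =>
        by_cases hk : k < n
        · exact ⟨k, hk, rfl⟩
        · have h1 : f^[k] x = f^[k - n + m] x := by
            have h2 : k = (k - n) + n := by omega
            conv_lhs => rw [h2]
            rw [Function.iterate_add_apply, ← h, ← Function.iterate_add_apply]
          obtain ⟨k', hk', h3⟩ := ih (k - n + m) (by omega)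
          exact ⟨k', hk', h3.trans h1.symm⟩
    exact (Set.toFinite _).subset hsub
  obtain ⟨M, hM⟩ := (hfin.image fun y => logHeight₁ y).bddAbove
  have hM' : ∀ k : ℕ, logHeight₁ (f^[k] x) ≤ M := fun k => hM ⟨_, ⟨k, rfl⟩, rfl⟩
  have h0 : ∀ k : ℕ, 0 ≤ logHeight₁ (f^[k] x) := fun k => zero_le_logHeight₁ _
  have hlim : Tendsto (fun k : ℕ => M / (a * e ^ k)) atTop (𝓝 0) := by
    have h1 : Tendsto (fun k : ℕ => a * e ^ k) atTop atTop :=
      (tendsto_pow_atTop_atTop_of_one_lt he).const_mul_atTop ha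
    exact Tendsto.const_div_atTop h1 M
  have hsq := squeeze_zero (fun k => div_nonneg (h0 k) (by positivity))
    (fun k => div_le_div_of_nonneg_right (hM' k) (by positivity)) hlim
  exact tendsto_nhds_unique hr hsq

/-- the coordinates -/
noncomputable def coordZ {J : Type} (ω : Basis J ℤ (𝓞 K)) {d : ℕ} (y : Fin (d + 1) → 𝓞 K) :
    Fin (d + 1) × J → ℤ := fun i => ω.repr (y i.1) i.2

omit [NumberField K] in
lemma coordZ_inj {J : Type} (ω : Basis J ℤ (𝓞 K)) {d : ℕ} :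
    Function.Injective (coordZ (d := d) ω) := by
  intro y z h
  funext i
  apply ω.repr.injective
  ext j
  exact congrFun h (i, j)

/-- **The number of the exceptional polynomials.** -/
theorem main (d n : ℕ) (hd : 2 ≤ d) : ∃ C : ℝ, 1 ≤ C ∧ ∀ (K : Type) [Field K]
    [NumberField K], finrank ℚ K = n → ∀ (J : Type) [Fintype J] (ω : Basis J ℤ (𝓞 K)) (X Y : ℕ),
    2 ≤ X → X ≤ Y → ∀ u : ℝ, 0 < u → ∀ S : Set (ℤ × (Fin (d + 1) → 𝓞 K)),
    (∀ q ∈ S, |q.1| ≤ (X : ℤ) ∧ (∀ i j, |ω.repr (q.2 i) j| ≤ (Y : ℤ)) ∧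
      (q.1 = 0 ∨ ∀ (p : ℕ) (v : HeightOneSpectrum (𝓞 K)), p.Prime → u * Real.log X ≤ Real.log p →
        (p : ℤ) ∣ q.1 → (p : 𝓞 K) ∈ v.asIdeal → ¬ IrrMod v d q.2)) →
    (S.ncard : ℝ) ≤ C * (u + 1 / Real.log X) ^ (1 / (d : ℝ)) *
      ((2 * X + 1) * (2 * Y + 1) ^ (n * (d + 1))) := by
  obtain ⟨C, hC, h⟩ := exc_final d (n * (d + 1)) hd
  refine ⟨C, hC, ?_⟩
  intro K _ _ hK J _ ω X Y hX hXY u hu S hS
  have hJ : Fintype.card J = n := by
    rw [← hK, ← RingOfIntegers.rank, Module.finrank_eq_card_basis ω]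
  have hcard : Fintype.card (Fin (d + 1) × J) = n * (d + 1) := by
    rw [Fintype.card_prod, Fintype.card_fin, hJ, mul_comm]
  set T : Set (ℤ × (Fin (d + 1) × J → ℤ)) := (fun q => (q.1, coordZ ω q.2)) '' S with hT
  have hinj : Function.Injective
      (fun q : ℤ × (Fin (d + 1) → 𝓞 K) => (q.1, coordZ ω q.2)) := by
    intro q q' h
    exact Prod.ext (Prod.mk.inj h).1 (coordZ_inj ω (Prod.mk.inj h).2)
  have h1 : S.ncard = T.ncard := (Set.ncard_image_of_injective S hinj).symm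
  rw [h1]
  refine h (Fin (d + 1) × J) (BadK ω d) hcard (few_bad ω d hd) X Y u hX hXY hu T ?_
  rintro _ ⟨q, hq, rfl⟩
  obtain ⟨a1, a2, a3⟩ := hS q hq
  refine ⟨a1, fun i => a2 i.1 i.2, ?_⟩
  rcases a3 with a3 | a3
  · exact Or.inl a3
  · refine Or.inr fun p hp hpu hpq => ?_
    by_contra hcon
    obtain ⟨v, hpv, hirr⟩ := good_of ω d p q.2 hcon
    exact a3 p v hp hpu hpq hpv hirr

end Pool.Agent.D0H55.LL
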