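import Mathlib
import Pool.Agent.Erdos456.Mertens

/-!
# An upper bound for the mean value of `∏_{p ∣ n} g(p)`, `0 ≤ g ≤ 1`
-/

set_option autoImplicit false

namespace Pool.Agent.D0H55.LL

open Finset

/-- the weight `∏_{p ∣ n} g p` -/
noncomputable def wt (g : ℕ → ℝ) (n : ℕ) : ℝ := ∏ p ∈ n.primeFactors, g p

section

variable {g : ℕ → ℝ} (h0 : ∀ p, 0 ≤ g p) (h1 : ∀ p, g p ≤ 1)

include h0 in
lemma wt_nonneg (n : ℕ) : 0 ≤ wt g n := prod_nonneg fun p _ => h0 p

include h0 h1 in
lemma wt_anti {m n : ℕ} (hn : n ≠ 0) (h : m ∣ n) : wt g n ≤ wt g m := by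
  classical
  have hsub : m.primeFactors ⊆ n.primeFactors := Nat.primeFactors_mono h hn
  unfold wt
  rw [← Finset.prod_sdiff hsub]
  have h2 : ∏ p ∈ n.primeFactors \ m.primeFactors, g p ≤ 1 :=
    Finset.prod_le_one (fun p _ => h0 p) fun p _ => h1 p
  have h3 : 0 ≤ ∏ p ∈ m.primeFactors, g p := prod_nonneg fun p _ => h0 p
  calc (∏ p ∈ n.primeFactors \ m.primeFactors, g p) * ∏ p ∈ m.primeFactors, g p ≤
      1 * ∏ p ∈ m.primeFactors, g p := mul_le_mul_of_nonneg_right h2 h3
    _ = _ := one_mul _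

include h0 h1 in
lemma sum_log_le (X : ℕ) :
    ∑ n ∈ Icc 1 X, wt g n * Real.log n ≤
      (Real.log 4 + 4) * X * ∑ m ∈ Icc 1 X, wt g m / m := by
  classical
  have e1 : ∀ n ∈ Icc 1 X, wt g n * Real.log n ≤
      ∑ m ∈ n.divisors, wt g m * ArithmeticFunction.vonMangoldt (n / m) := by
    intro n hn
    have hn0 : n ≠ 0 := by
      have := (mem_Icc.1 hn).1
      omega
    rw [← ArithmeticFunction.vonMangoldt_sum, ← Nat.sum_div_divisors n
      (fun i => ArithmeticFunction.vonMangoldt i), Finset.mul_sum]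
    refine sum_le_sum fun m hm => ?_
    exact mul_le_mul_of_nonneg_right (wt_anti h0 h1 hn0 (Nat.dvd_of_mem_divisors hm))
      ArithmeticFunction.vonMangoldt_nonneg
  refine (sum_le_sum e1).trans ?_
  rw [Finset.sum_comm' (t' := Icc 1 X) (s' := fun m => (Icc 1 X).filter fun n => m ∣ n) (by
    intro n m
    rw [mem_Icc, Nat.mem_divisors, mem_filter, mem_Icc, mem_Icc]
    constructor
    · rintro ⟨⟨a, b⟩, c, e⟩
      exact ⟨⟨⟨a, b⟩, c⟩, Nat.pos_of_dvd_of_pos c (by omega), (Nat.le_of_dvd (by omega) c).trans b⟩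
    · rintro ⟨⟨⟨a, b⟩, c⟩, e, f⟩
      exact ⟨⟨a, b⟩, c, by omega⟩)]
  rw [Finset.mul_sum]
  refine sum_le_sum fun m hm => ?_
  have hm1 : 1 ≤ m := (mem_Icc.1 hm).1
  have hm0 : (0 : ℝ) < m := by exact_mod_cast hm1
  rw [← Finset.mul_sum]
  have e2 : (Icc 1 X).filter (fun n => m ∣ n) = (Ioc 0 (X / m)).image (fun k => m * k) := by
    ext n
    rw [mem_filter, mem_Icc, mem_image]
    constructor
    · rintro ⟨⟨a, b⟩, k, rfl⟩
      refine ⟨k, ?_, rfl⟩
      rw [mem_Ioc]
      refine ⟨Nat.pos_of_ne_zero ?_, ?_⟩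
      · rintro rfl
        simp at a
      · rw [Nat.le_div_iff_mul_le (by omega), mul_comm]
        exact b
    · rintro ⟨k, hk, rfl⟩
      rw [mem_Ioc] at hk
      refine ⟨⟨Nat.mul_pos (by omega) hk.1, ?_⟩, dvd_mul_right _ _⟩
      have := (Nat.le_div_iff_mul_le (by omega : 0 < m)).1 hk.2
      rwa [mul_comm]
  have e3 : ∑ n ∈ (Icc 1 X).filter (fun n => m ∣ n), ArithmeticFunction.vonMangoldt (n / m) =
      Chebyshev.psi ((X : ℝ) / m) := by
    rw [e2, Finset.sum_image (by
      intro a _ b _ hab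
      exact Nat.eq_of_mul_eq_mul_left (by omega) hab), Chebyshev.psi, Nat.floor_div_eq_div]
    refine sum_congr rfl fun k _ => ?_
    rw [Nat.mul_div_cancel_left _ (by omega)]
  rw [e3]
  have e4 := Chebyshev.psi_le_const_mul_self (x := (X : ℝ) / m) (by positivity)
  calc wt g m * Chebyshev.psi ((X : ℝ) / m) ≤ wt g m * ((Real.log 4 + 4) * ((X : ℝ) / m)) :=
      mul_le_mul_of_nonneg_left e4 (wt_nonneg h0 m)
    _ = (Real.log 4 + 4) * X * (wt g m / m) := by ring

lemma sum_sq_le (X : ℕ) : ∑ s ∈ Icc 1 X, 1 / (s : ℝ) ^ 2 ≤ 2 := by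
  have key : ∀ N : ℕ, ∑ s ∈ Icc 1 (N + 1), 1 / (s : ℝ) ^ 2 ≤ 2 - 1 / ((N : ℝ) + 1) := by
    intro N
    induction N with
    | zero => norm_num
    | succ N ih =>
      rw [Finset.sum_Icc_succ_top (by omega)]
      have h3 : 1 / (((N + 1 + 1 : ℕ) : ℝ)) ^ 2 ≤ 1 / ((N : ℝ) + 1) - 1 / ((N : ℝ) + 1 + 1) := by
        push_cast
        rw [div_sub_div _ _ (by positivity) (by positivity), div_le_div_iff₀ (by positivity)
          (by positivity)]
        nlinarith [show (0 : ℝ) ≤ N from Nat.cast_nonneg _]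
      push_cast at *
      linarith
  rcases X with _ | X
  · simp
  · refine (key X).trans ?_
    have : 0 < 1 / ((X : ℝ) + 1) := by positivity
    linarith

include h0 h1 in
lemma sum_inv_le (X : ℕ) :
    ∑ m ∈ Icc 1 X, wt g m / m ≤
      2 * Real.exp (∑ p ∈ (Icc 1 X).filter Nat.Prime, g p / p) := by
  classical
  choose a b hab hsq using fun n : ℕ => Nat.sq_mul_squarefree n
  set S : Finset ℕ := (Icc 1 X).filter Squarefree with hS
  have e1 : ∑ m ∈ Icc 1 X, wt g m / m ≤
      ∑ q ∈ S ×ˢ Icc 1 X, wt g q.1 / q.1 * (1 / (q.2 : ℝ) ^ 2) := by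
    have hinj : Set.InjOn (fun m : ℕ => (a m, b m)) ((Icc 1 X : Finset ℕ) : Set ℕ) := by
      intro m _ n _ h
      have h2 := (Prod.mk.injEq _ _ _ _ ▸ h : a m = a n ∧ b m = b n)
      rw [← hab m, ← hab n, h2.1, h2.2]
    calc ∑ m ∈ Icc 1 X, wt g m / m ≤
        ∑ m ∈ Icc 1 X, (wt g (a m) / (a m : ℕ) * (1 / ((b m : ℕ) : ℝ) ^ 2)) := by
          refine sum_le_sum fun m hm => ?_
          have hm1 := (mem_Icc.1 hm).1
          have hb0 : b m ≠ 0 := by
            intro h
            have := hab m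
            rw [h] at this
            simp at this
            omega
          have ha0 : a m ≠ 0 := by
            intro h
            have := hab m
            rw [h] at this
            simp at this
            omega
          have h3 : (m : ℝ) = (b m : ℝ) ^ 2 * (a m : ℝ) := by
            have := hab m
            exact_mod_cast this.symm
          have h4 : wt g m ≤ wt g (a m) := wt_anti h0 h1 (by omega) ⟨b m ^ 2, by
            rw [mul_comm]
            exact (hab m).symm⟩
          have hb1 : (0 : ℝ) < b m := by exact_mod_cast Nat.pos_of_ne_zero hb0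
          have ha1 : (0 : ℝ) < a m := by exact_mod_cast Nat.pos_of_ne_zero ha0
          calc wt g m / m ≤ wt g (a m) / m :=
              div_le_div_of_nonneg_right h4 (Nat.cast_nonneg _)
            _ = _ := by
              rw [h3]
              field_simp
      _ = ∑ q ∈ (Icc 1 X).image (fun m : ℕ => (a m, b m)),
            wt g q.1 / q.1 * (1 / (q.2 : ℝ) ^ 2) := by
          rw [Finset.sum_image hinj]
      _ ≤ _ := by
          refine sum_le_sum_of_subset_of_nonneg ?_ ?_
          · intro q hq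
            obtain ⟨m, hm, rfl⟩ := mem_image.1 hq
            have hm1 := (mem_Icc.1 hm).1
            have hm2 := (mem_Icc.1 hm).2
            have hb0 : b m ≠ 0 := by
              intro h
              have := hab m
              rw [h] at this
              simp at this
              omega
            have ha0 : a m ≠ 0 := by
              intro h
              have := hab m
              rw [h] at this
              simp at this
              omega
            have hle1 : a m ≤ m := Nat.le_of_dvd (by omega) ⟨b m ^ 2, by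
              rw [mul_comm]
              exact (hab m).symm⟩
            have hle2 : b m ≤ m := Nat.le_of_dvd (by omega) ⟨b m * a m, by
              rw [← mul_assoc, ← sq]
              exact (hab m).symm⟩
            rw [mem_product, hS, mem_filter, mem_Icc, mem_Icc]
            exact ⟨⟨⟨by omega, by omega⟩, hsq m⟩, by omega, by omega⟩
          · intro q _ _
            have := wt_nonneg h0 q.1
            positivity
  rw [Finset.sum_product] at e1
  simp_rw [← Finset.mul_sum] at e1
  rw [← Finset.sum_mul] at e1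
  have e2 : ∑ r ∈ S, wt g r / r ≤ ∏ p ∈ (Icc 1 X).filter Nat.Prime, (1 + g p / p) := by
    rw [Finset.prod_one_add]
    have hinj : Set.InjOn (fun r : ℕ => r.primeFactors) (S : Set ℕ) := by
      intro r hr s hs h
      rw [Finset.mem_coe, hS, mem_filter] at hr hs
      have h2 := Nat.prod_primeFactors_of_squarefree hr.2
      have h3 := Nat.prod_primeFactors_of_squarefree hs.2
      have h4 : r.primeFactors = s.primeFactors := h
      rw [← h2, ← h3, h4]
    calc ∑ r ∈ S, wt g r / r = ∑ r ∈ S, ∏ p ∈ r.primeFactors, (g p / p) := by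
          refine sum_congr rfl fun r hr => ?_
          rw [hS, mem_filter] at hr
          rw [Finset.prod_div_distrib, wt]
          congr 1
          have h2 := Nat.prod_primeFactors_of_squarefree hr.2
          conv_lhs => rw [← h2]
          push_cast
          rfl
      _ = ∑ t ∈ S.image (fun r : ℕ => r.primeFactors), ∏ p ∈ t, (g p / p) := by
          rw [Finset.sum_image hinj]
      _ ≤ _ := by
          refine sum_le_sum_of_subset_of_nonneg ?_ ?_
          · intro t ht
            obtain ⟨r, hr, rfl⟩ := mem_image.1 ht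
            rw [hS, mem_filter, mem_Icc] at hr
            rw [mem_powerset]
            intro p hp
            have hp2 := Nat.prime_of_mem_primeFactors hp
            have hp3 := Nat.dvd_of_mem_primeFactors hp
            rw [mem_filter, mem_Icc]
            exact ⟨⟨hp2.one_le, (Nat.le_of_dvd (by omega) hp3).trans hr.1.2⟩, hp2⟩
          · intro t _ _
            exact prod_nonneg fun p _ => div_nonneg (h0 p) (Nat.cast_nonneg _)
  have e3 : ∏ p ∈ (Icc 1 X).filter Nat.Prime, (1 + g p / p) ≤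
      Real.exp (∑ p ∈ (Icc 1 X).filter Nat.Prime, g p / p) := by
    rw [Real.exp_sum]
    refine prod_le_prod (fun p _ => ?_) fun p _ => ?_
    · have := div_nonneg (h0 p) (Nat.cast_nonneg (α := ℝ) p)
      linarith
    · rw [add_comm]
      exact Real.add_one_le_exp _
  have e4 : 0 ≤ ∑ r ∈ S, wt g r / r := sum_nonneg fun r _ =>
    div_nonneg (wt_nonneg h0 r) (Nat.cast_nonneg _)
  calc ∑ m ∈ Icc 1 X, wt g m / m ≤ (∑ r ∈ S, wt g r / r) * ∑ s ∈ Icc 1 X, 1 / (s : ℝ) ^ 2 := e1
    _ ≤ (∑ r ∈ S, wt g r / r) * 2 := mul_le_mul_of_nonneg_left (sum_sq_le X) e4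
    _ ≤ Real.exp (∑ p ∈ (Icc 1 X).filter Nat.Prime, g p / p) * 2 :=
        mul_le_mul_of_nonneg_right (e2.trans e3) two_pos.le
    _ = _ := mul_comm _ _

end

/-- **Mean values.** -/
theorem mean_le : ∃ C : ℝ, 0 < C ∧ ∀ (g : ℕ → ℝ), (∀ p, 0 ≤ g p) → (∀ p, g p ≤ 1) →
    ∀ X : ℕ, 3 ≤ X → ∑ n ∈ Icc 1 X, wt g n ≤
      C * X * Real.exp (∑ p ∈ (Icc 1 X).filter Nat.Prime, (g p - 1) / p) := by
  obtain ⟨M, hM⟩ := Pool.Agent.Erdos456.Mert.mertens_inv
  refine ⟨(Real.log 4 + 5) * 2 * Real.exp M, ?_, ?_⟩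
  · have : 0 < Real.log 4 := Real.log_pos (by norm_num)
    positivity
  intro g h0 h1 X hX
  have hl4 : 0 < Real.log 4 := Real.log_pos (by norm_num)
  have hX0 : (0 : ℝ) < X := by exact_mod_cast (by omega : 0 < X)
  have hX3 : (3 : ℝ) ≤ X := by exact_mod_cast hX
  have hlog : 0 < Real.log X := Real.log_pos (by linarith)
  have e1 := sum_log_le h0 h1 X
  have e2 := sum_inv_le h0 h1 X
  have e3 : ∑ n ∈ Icc 1 X, wt g n * (Real.log X - Real.log n) ≤
      X * ∑ m ∈ Icc 1 X, wt g m / m := by
    rw [Finset.mul_sum]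
    refine sum_le_sum fun n hn => ?_
    have hn1 : (1 : ℝ) ≤ n := by exact_mod_cast (mem_Icc.1 hn).1
    have hn0 : (0 : ℝ) < n := by linarith
    have h2 : Real.log X - Real.log n ≤ (X : ℝ) / n := by
      rw [← Real.log_div hX0.ne' hn0.ne']
      have := Real.log_le_sub_one_of_pos (show (0 : ℝ) < (X : ℝ) / n by positivity)
      linarith
    calc wt g n * (Real.log X - Real.log n) ≤ wt g n * ((X : ℝ) / n) :=
        mul_le_mul_of_nonneg_left h2 (wt_nonneg h0 n)
      _ = _ := by ring
  have e4 : Real.log X * ∑ n ∈ Icc 1 X, wt g n ≤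
      (Real.log 4 + 5) * X * ∑ m ∈ Icc 1 X, wt g m / m := by
    have h2 : Real.log X * ∑ n ∈ Icc 1 X, wt g n = ∑ n ∈ Icc 1 X, wt g n * Real.log n +
        ∑ n ∈ Icc 1 X, wt g n * (Real.log X - Real.log n) := by
      rw [← Finset.sum_add_distrib, Finset.mul_sum]
      refine sum_congr rfl fun n _ => ?_
      ring
    rw [h2]
    calc _ ≤ (Real.log 4 + 4) * X * ∑ m ∈ Icc 1 X, wt g m / m +
        X * ∑ m ∈ Icc 1 X, wt g m / m := add_le_add e1 e3
      _ = _ := by ring
  have e5 : ∑ p ∈ (Icc 1 X).filter Nat.Prime, g p / p =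
      ∑ p ∈ (Icc 1 X).filter Nat.Prime, (1 : ℝ) / p +
        ∑ p ∈ (Icc 1 X).filter Nat.Prime, (g p - 1) / p := by
    rw [← Finset.sum_add_distrib]
    refine sum_congr rfl fun p _ => ?_
    ring
  have e6 : ∑ p ∈ (Icc 1 X).filter Nat.Prime, (1 : ℝ) / p ≤ Real.log (Real.log X) + M := by
    have := (abs_le.1 (hM X hX)).2
    linarith
  set E := Real.exp (∑ p ∈ (Icc 1 X).filter Nat.Prime, (g p - 1) / p) with hE
  have hE0 : 0 < E := Real.exp_pos _
  have e7 : Real.exp (∑ p ∈ (Icc 1 X).filter Nat.Prime, g p / p) ≤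
      Real.log X * Real.exp M * E := by
    rw [e5, Real.exp_add]
    refine mul_le_mul_of_nonneg_right ?_ hE0.le
    calc Real.exp (∑ p ∈ (Icc 1 X).filter Nat.Prime, (1 : ℝ) / p) ≤
        Real.exp (Real.log (Real.log X) + M) := Real.exp_le_exp.2 e6
      _ = Real.log X * Real.exp M := by rw [Real.exp_add, Real.exp_log hlog]
  have e8 : Real.log X * ∑ n ∈ Icc 1 X, wt g n ≤
      Real.log X * ((Real.log 4 + 5) * 2 * Real.exp M * X * E) := by
    calc _ ≤ (Real.log 4 + 5) * X * ∑ m ∈ Icc 1 X, wt g m / m := e4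
      _ ≤ (Real.log 4 + 5) * X * (2 * (Real.log X * Real.exp M * E)) := by
          refine mul_le_mul_of_nonneg_left ?_ (by positivity)
          exact e2.trans (mul_le_mul_of_nonneg_left e7 two_pos.le)
      _ = _ := by ring
  exact le_of_mul_le_mul_left e8 hlog

end Pool.Agent.D0H55.LL
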