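import Pool.Agent.D0H55.LL.Hgt
import Pool.Agent.D0H55.LL.Main

/-!
# The canonical height of `0`: an upper bound
-/

set_option autoImplicit false

namespace Pool.Agent.D0H55.LL

open NumberField Module Height Filter Topology

variable {K : Type} [Field K]

/-- the sum of the absolute values of the coefficients -/
noncomputable def ssum (v : AbsoluteValue K ℝ) (p : MvPolynomial (Fin 2) K) : ℝ :=
  ∑ s ∈ p.support, v (p.coeff s)

lemma ssum_add (v : AbsoluteValue K ℝ) (p q : MvPolynomial (Fin 2) K) :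
    ssum v (p + q) ≤ ssum v p + ssum v q := by
  classical
  unfold ssum
  have h1 : ∀ r : MvPolynomial (Fin 2) K, r.support ⊆ p.support ∪ q.support ∪ r.support :=
    fun r => Finset.subset_union_right
  set T := p.support ∪ q.support with hT
  have e : ∀ r : MvPolynomial (Fin 2) K, r.support ⊆ T →
      ∑ s ∈ r.support, v (r.coeff s) = ∑ s ∈ T, v (r.coeff s) := by
    intro r hr
    refine Finset.sum_subset hr fun s _ hs => ?_
    rw [MvPolynomial.notMem_support_iff.1 hs, map_zero]
  rw [e (p + q) (MvPolynomial.support_add), e p Finset.subset_union_left,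
    e q Finset.subset_union_right, ← Finset.sum_add_distrib]
  refine Finset.sum_le_sum fun s _ => ?_
  rw [MvPolynomial.coeff_add]
  exact v.add_le _ _

lemma ssum_zero (v : AbsoluteValue K ℝ) : ssum v (0 : MvPolynomial (Fin 2) K) = 0 := by
  simp [ssum]

lemma ssum_monomial (v : AbsoluteValue K ℝ) (s : Fin 2 →₀ ℕ) (a : K) :
    ssum v (MvPolynomial.monomial s a) ≤ v a := by
  classical
  unfold ssum
  by_cases ha : a = 0
  · rw [ha, map_zero, MvPolynomial.support_zero, Finset.sum_empty, map_zero]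
  · rw [MvPolynomial.support_monomial, if_neg ha, Finset.sum_singleton, MvPolynomial.coeff_monomial,
      if_pos rfl]

lemma ssum_sum (v : AbsoluteValue K ℝ) {N : ℕ} (F : Fin N → MvPolynomial (Fin 2) K) :
    ssum v (∑ i, F i) ≤ ∑ i, ssum v (F i) := by
  classical
  induction (Finset.univ : Finset (Fin N)) using Finset.induction_on with
  | empty => rw [Finset.sum_empty, Finset.sum_empty, ssum_zero]
  | insert a s ha ih =>
    rw [Finset.sum_insert ha, Finset.sum_insert ha]
    refine (ssum_add v _ _).trans ?_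
    linarith

/-- the two forms of the polynomial -/
noncomputable def frm {d : ℕ} (b : K) (c : Fin (d + 1) → K) : Fin 2 → MvPolynomial (Fin 2) K :=
  ![∑ i : Fin (d + 1), MvPolynomial.monomial
      (Finsupp.single 0 (i : ℕ) + Finsupp.single 1 (d - (i : ℕ))) (c i),
    MvPolynomial.monomial (Finsupp.single 1 d) b]

lemma frm_hom {d : ℕ} (b : K) (c : Fin (d + 1) → K) (j : Fin 2) :
    (frm b c j).IsHomogeneous d := by
  refine Fin.cases ?_ (fun j => ?_) j
  · change MvPolynomial.IsHomogeneous (∑ i : Fin (d + 1), MvPolynomial.monomial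
      (Finsupp.single 0 (i : ℕ) + Finsupp.single 1 (d - (i : ℕ))) (c i)) d
    refine MvPolynomial.IsHomogeneous.sum _ _ _ fun i _ => ?_
    refine MvPolynomial.isHomogeneous_monomial _ ?_
    have hi : (i : ℕ) ≤ d := by have := i.2; omega
    rw [map_add, Finsupp.degree_single, Finsupp.degree_single]
    omega
  · have hj : j = 0 := Subsingleton.elim _ _
    subst hj
    change MvPolynomial.IsHomogeneous (MvPolynomial.monomial (Finsupp.single 1 d) b) d
    refine MvPolynomial.isHomogeneous_monomial _ ?_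
    rw [Finsupp.degree_single]

lemma frm_eval0 {d : ℕ} (b : K) (c : Fin (d + 1) → K) (y : K) :
    MvPolynomial.eval ![y, 1] (frm b c 0) = ∑ i : Fin (d + 1), c i * y ^ (i : ℕ) := by
  change MvPolynomial.eval ![y, 1] (∑ i : Fin (d + 1), MvPolynomial.monomial
      (Finsupp.single 0 (i : ℕ) + Finsupp.single 1 (d - (i : ℕ))) (c i)) = _
  rw [map_sum]
  refine Finset.sum_congr rfl fun i _ => ?_
  rw [MvPolynomial.eval_monomial, Finsupp.prod_add_index' (by simp) (by intros; rw [pow_add])]
  simp

lemma frm_eval1 {d : ℕ} (b : K) (c : Fin (d + 1) → K) (y : K) :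
    MvPolynomial.eval ![y, 1] (frm b c 1) = b := by
  change MvPolynomial.eval ![y, 1] (MvPolynomial.monomial (Finsupp.single 1 d) b) = _
  rw [MvPolynomial.eval_monomial]
  simp

variable [NumberField K]

lemma bound_le {J : Type} [Fintype J] (ω : Basis J ℤ (𝓞 K)) {d : ℕ} (X : ℕ) (hX : 1 ≤ X)
    (b : ℤ) (hbX : |b| ≤ (X : ℤ)) (c : Fin (d + 1) → 𝓞 K)
    (hc : ∀ i j, |ω.repr (c i) j| ≤ (X : ℤ)) :
    mulHeightBound (frm (b : K) fun i => (c i : K)) ≤
      (((d : ℝ) + 1) * (size ω * X)) ^ finrank ℚ K := by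
  classical
  have hX1 : (1 : ℝ) ≤ X := by exact_mod_cast hX
  have hs := one_le_size ω
  have hA1 : 1 ≤ size ω * X := by nlinarith
  have hd0 : (0 : ℝ) ≤ d := Nat.cast_nonneg _
  set A : ℝ := ((d : ℝ) + 1) * (size ω * X) with hA
  have hA0 : 0 < A := by
    rw [hA]
    positivity
  have h1 : ∀ (v : InfinitePlace K) (j : Fin 2), ssum v.1 (frm (b : K) (fun i => (c i : K)) j) ≤ A := by
    intro v j
    refine Fin.cases ?_ (fun j => ?_) j
    · change ssum v.1 (∑ i : Fin (d + 1), MvPolynomial.monomial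
        (Finsupp.single 0 (i : ℕ) + Finsupp.single 1 (d - (i : ℕ))) (c i : K)) ≤ A
      refine (ssum_sum v.1 _).trans ?_
      calc ∑ i : Fin (d + 1), ssum v.1 (MvPolynomial.monomial
            (Finsupp.single 0 (i : ℕ) + Finsupp.single 1 (d - (i : ℕ))) (c i : K)) ≤
          ∑ _i : Fin (d + 1), (size ω * X) := by
            refine Finset.sum_le_sum fun i _ => (ssum_monomial v.1 _ _).trans ?_
            exact inf_le ω X (c i) (hc i) v
        _ = A := by
            rw [Finset.sum_const, Finset.card_univ, Fintype.card_fin, nsmul_eq_mul, hA]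
            push_cast
            ring
    · have hj : j = 0 := Subsingleton.elim _ _
      subst hj
      change ssum v.1 (MvPolynomial.monomial (Finsupp.single 1 d) (b : K)) ≤ A
      refine (ssum_monomial v.1 _ _).trans ?_
      have h2 : v (b : K) = |(b : ℝ)| := inf_int v b
      have h3 : |(b : ℝ)| ≤ X := by exact_mod_cast hbX
      have h4 : v.1 (b : K) = v (b : K) := rfl
      rw [h4, h2, hA]
      nlinarith
  have h2 : ∀ (v : FinitePlace K) (j : Fin 2) (s : Fin 2 →₀ ℕ),
      v ((frm (b : K) (fun i => (c i : K)) j).coeff s) ≤ 1 := by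
    have key : ∀ (v : FinitePlace K) (x : 𝓞 K) (s t : Fin 2 →₀ ℕ),
        v ((MvPolynomial.monomial t (x : K)).coeff s) ≤ 1 := by
      intro v x s t
      rw [MvPolynomial.coeff_monomial]
      split_ifs
      · exact finite_le_one v x
      · rw [map_zero]
        exact zero_le_one
    intro v j s
    refine Fin.cases ?_ (fun j => ?_) j
    · change v ((∑ i : Fin (d + 1), MvPolynomial.monomial
        (Finsupp.single 0 (i : ℕ) + Finsupp.single 1 (d - (i : ℕ))) (c i : K)).coeff s) ≤ 1
      have h3 : (∑ i : Fin (d + 1), MvPolynomial.monomial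
        (Finsupp.single 0 (i : ℕ) + Finsupp.single 1 (d - (i : ℕ))) (c i : K)).coeff s =
          ((∑ i : Fin (d + 1), if Finsupp.single 0 (i : ℕ) + Finsupp.single 1 (d - (i : ℕ)) = s then
            c i else 0 : 𝓞 K) : K) := by
        change _ = algebraMap (𝓞 K) K _
        rw [MvPolynomial.coeff_sum, map_sum]
        refine Finset.sum_congr rfl fun i _ => ?_
        rw [MvPolynomial.coeff_monomial]
        split_ifs
        · rfl
        · rw [map_zero]
      rw [h3]
      exact finite_le_one v _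
    · have hj : j = 0 := Subsingleton.elim _ _
      subst hj
      change v ((MvPolynomial.monomial (Finsupp.single 1 d) (b : K)).coeff s) ≤ 1
      have := key v (b : 𝓞 K) s (Finsupp.single 1 d)
      simpa using this
  rw [mulHeightBound_eq, prod_archAbsVal_eq, prod_nonarchAbsVal_eq (fun v : AbsoluteValue K ℝ =>
    ⨆ j, max (⨆ s : (frm (b : K) (fun i => (c i : K)) j).support,
      v (MvPolynomial.coeff s (frm (b : K) (fun i => (c i : K)) j))) 1)]
  have h4 : ∏ᶠ v : FinitePlace K, ⨆ j, max (⨆ s : (frm (b : K) (fun i => (c i : K)) j).support,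
      v.val (MvPolynomial.coeff s (frm (b : K) (fun i => (c i : K)) j))) 1 ≤ 1 := by
    refine finprod_le_one_real _ (fun v => ?_) fun v => ?_
    · exact Real.iSup_nonneg fun j => zero_le_one.trans (le_max_right _ _)
    · refine ciSup_le fun j => max_le ?_ le_rfl
      exact Real.iSup_le (fun s => h2 v j s) zero_le_one
  have h40 : 0 ≤ ∏ᶠ v : FinitePlace K, ⨆ j, max (⨆ s : (frm (b : K) (fun i => (c i : K)) j).support,
      v.val (MvPolynomial.coeff s (frm (b : K) (fun i => (c i : K)) j))) 1 :=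
    finprod_nonneg fun v => Real.iSup_nonneg fun j => zero_le_one.trans (le_max_right _ _)
  have h5 : ∏ v : InfinitePlace K, (⨆ j, (AddMonoidAlgebra.coeff
      (frm (b : K) (fun i => (c i : K)) j)).sum (fun _ c ↦ v.val c)) ^ v.mult ≤
      A ^ finrank ℚ K := by
    calc _ ≤ ∏ v : InfinitePlace K, A ^ v.mult := by
          refine Finset.prod_le_prod (fun v _ => ?_) fun v _ => ?_
          · refine pow_nonneg (Real.iSup_nonneg fun j => ?_) _
            exact Finset.sum_nonneg fun s _ => v.1.nonneg _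
          · refine pow_le_pow_left₀ (Real.iSup_nonneg fun j => ?_) (ciSup_le fun j => h1 v j) _
            exact Finset.sum_nonneg fun s _ => v.1.nonneg _
      _ = _ := by
          rw [Finset.prod_pow_eq_pow_sum, InfinitePlace.sum_mult_eq]
  calc _ ≤ A ^ finrank ℚ K * 1 := mul_le_mul h5 h4 h40 (by positivity)
    _ = _ := mul_one _

/-- one step -/
theorem step_le {J : Type} [Fintype J] (ω : Basis J ℤ (𝓞 K)) {d : ℕ} (X : ℕ) (hX : 1 ≤ X)
    (b : ℤ) (hb : b ≠ 0) (hbX : |b| ≤ (X : ℤ)) (c : Fin (d + 1) → 𝓞 K)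
    (hc : ∀ i j, |ω.repr (c i) j| ≤ (X : ℤ)) (y : K) :
    logHeight₁ (Polynomial.aeval y (poly b c)) ≤
      finrank ℚ K * Real.log (((d : ℝ) + 1) * (size ω * X)) + d * logHeight₁ y := by
  have hX1 : (1 : ℝ) ≤ X := by exact_mod_cast hX
  have hs := one_le_size ω
  have hA1 : 1 ≤ size ω * X := by nlinarith
  have hd0 : (0 : ℝ) ≤ d := Nat.cast_nonneg _
  have hb0 : (b : K) ≠ 0 := by exact_mod_cast hb
  have h1 := logHeight_eval_le (frm_hom (b : K) fun i => (c i : K)) ![y, 1]
  have h2 : (fun j => MvPolynomial.eval ![y, 1] (frm (b : K) (fun i => (c i : K)) j)) =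
      (b : K) • ![Polynomial.aeval y (poly b c), 1] := by
    funext j
    refine Fin.cases ?_ (fun j => ?_) j
    · rw [frm_eval0]
      change _ = (b : K) * Polynomial.aeval y (poly b c)
      rw [poly, map_mul, Polynomial.aeval_C, map_sum]
      simp only [map_mul, Polynomial.aeval_C, map_pow, Polynomial.aeval_X, Algebra.algebraMap_self,
        RingHom.id_apply]
      rw [← mul_assoc, mul_inv_cancel₀ hb0, one_mul]
    · have hj : j = 0 := Subsingleton.elim _ _
      subst hj
      change MvPolynomial.eval ![y, 1] (frm (b : K) (fun i => (c i : K)) 1) = (b : K) * 1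
      rw [frm_eval1, mul_one]
  rw [h2, logHeight_smul_eq_logHeight _ hb0, ← logHeight₁_eq_logHeight,
    ← logHeight₁_eq_logHeight] at h1
  refine h1.trans ?_
  have h3 := bound_le ω X hX b hbX c hc
  have h4 : (1 : ℝ) ≤ (((d : ℝ) + 1) * (size ω * X)) ^ finrank ℚ K := by
    refine one_le_pow₀ ?_
    nlinarith
  have h5 : Real.log (max (mulHeightBound (frm (b : K) fun i => (c i : K))) 1) ≤
      finrank ℚ K * Real.log (((d : ℝ) + 1) * (size ω * X)) := by
    rw [← Real.log_pow]
    refine Real.log_le_log (lt_of_lt_of_le one_pos (le_max_right _ _)) (max_le h3 h4)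
  linarith

/-- **The canonical height of `0`.** -/
theorem zero_le {J : Type} [Fintype J] (ω : Basis J ℤ (𝓞 K)) {d : ℕ} (hd : 2 ≤ d) (X : ℕ)
    (hX : 1 ≤ X) (b : ℤ) (hb : b ≠ 0) (hbX : |b| ≤ (X : ℤ)) (c : Fin (d + 1) → 𝓞 K)
    (hc : ∀ i j, |ω.repr (c i) j| ≤ (X : ℤ)) (r : ℝ)
    (hr : Tendsto (fun k : ℕ => logHeight₁ ((fun y : K => Polynomial.aeval y (poly b c))^[k] 0) /
        ((finrank ℚ K : ℝ) * (d : ℝ) ^ k)) atTop (𝓝 r)) :
    r ≤ (Real.log X + Real.log (((d : ℝ) + 1) * size ω)) / (d - 1) := by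
  have hX1 : (1 : ℝ) ≤ X := by exact_mod_cast hX
  have hs := one_le_size ω
  have hd2 : (2 : ℝ) ≤ d := by exact_mod_cast hd
  have hn : (0 : ℝ) < finrank ℚ K := Nat.cast_pos.2 finrank_pos
  set A : ℝ := Real.log (((d : ℝ) + 1) * (size ω * X)) with hA
  have hA0 : 0 ≤ A := by
    rw [hA]
    refine Real.log_nonneg ?_
    have hA1 : 1 ≤ size ω * X := by nlinarith
    nlinarith
  have key : ∀ k : ℕ, logHeight₁ ((fun y : K => Polynomial.aeval y (poly b c))^[k] 0) ≤
      finrank ℚ K * A * ((d : ℝ) ^ k - 1) / (d - 1) := by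
    intro k
    induction k with
    | zero => simp
    | succ k ih =>
      rw [Function.iterate_succ_apply']
      have hst := step_le ω X hX b hb hbX c hc
        ((fun y : K => Polynomial.aeval y (poly b c))^[k] 0)
      rw [← hA] at hst
      refine hst.trans ?_
      have h1 : (0 : ℝ) < (d : ℝ) - 1 := by linarith
      have h2 : (d : ℝ) * logHeight₁ ((fun y : K => Polynomial.aeval y (poly b c))^[k] 0) ≤
          d * (finrank ℚ K * A * ((d : ℝ) ^ k - 1) / (d - 1)) :=
        mul_le_mul_of_nonneg_left ih (by linarith)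
      refine (add_le_add le_rfl h2).trans (le_of_eq ?_)
      rw [pow_succ]
      field_simp
      ring
  have hlim : ∀ k : ℕ, logHeight₁ ((fun y : K => Polynomial.aeval y (poly b c))^[k] 0) /
        ((finrank ℚ K : ℝ) * (d : ℝ) ^ k) ≤ A / (d - 1) := by
    intro k
    have hdk : (0 : ℝ) < (d : ℝ) ^ k := by positivity
    have h1 : (0 : ℝ) < (d : ℝ) - 1 := by linarith
    rw [div_le_div_iff₀ (by positivity) h1]
    have h2 := key k
    rw [le_div_iff₀ h1] at h2
    refine h2.trans ?_
    have h3 : 0 ≤ (finrank ℚ K : ℝ) * A := by positivity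
    nlinarith
  have h2 := le_of_tendsto' hr hlim
  refine h2.trans (le_of_eq ?_)
  congr 1
  rw [hA, show ((d : ℝ) + 1) * (size ω * X) = X * (((d : ℝ) + 1) * size ω) by ring,
    Real.log_mul (by linarith) (by positivity)]

end Pool.Agent.D0H55.LL
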